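import Pool.Agent.L5helper26.CD.Cls

set_option autoImplicit false
set_option linter.unusedSectionVars false

/-! # The identity at `s = α` -/

namespace Pool.Agent.L5helper26.CD

open Polynomial

variable {B κ : Type*} [CommRing B] [IsDomain B] [Algebra ℂ B] [Fintype κ]

theorem final_poly (d : κ → Derivation ℂ B B) (u0 ω : B) (hu0 : u0 ≠ 0) (b lin : ℂ[X])
    (x0 : ℕ → B) (x : κ → ℕ → B) (h0 : Cls u0 x0) (hx : ∀ w, Cls u0 (x w)) (S : ℕ)
    (hid : ∀ s : ℕ, S ≤ s → algebraMap ℂ B (b.eval (s : ℂ)) * ω * u0 ^ s =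
      algebraMap ℂ B (lin.eval (s : ℂ)) * x0 s + ∑ w, d w (x w s)) (α : ℂ)
    (hα : lin.eval α = 0) : ∃ (M : ℕ) (V : κ → B),
      algebraMap ℂ B (b.eval α) * ω * u0 ^ (M + 1) =
        ∑ w, (u0 * d w (V w) + algebraMap ℂ B (α - M) * V w * d w u0) := by
  classical
  obtain ⟨N0, hN0⟩ := h0.raise
  choose Nx hNx using fun w => (hx w).raise
  have hw : ∀ w, Nx w ≤ ∑ w, Nx w := fun w =>
    Finset.single_le_sum (f := fun w => Nx w) (fun _ _ => Nat.zero_le _) (Finset.mem_univ w)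
  obtain ⟨V0, hV0⟩ := hN0 (S + N0 + ∑ w, Nx w) (by omega)
  choose V hV using fun w => hNx w (S + N0 + ∑ w, Nx w) (by have := hw w; omega)
  set N : ℕ := S + N0 + ∑ w, Nx w with hN
  have hSN : S ≤ N := by omega
  clear_value N
  let E : B[X] := b.map (algebraMap ℂ B) * C (ω * u0 ^ (N + 1)) -
    C u0 * lin.map (algebraMap ℂ B) * V0 -
      ∑ w, (C u0 * mapD (d w : B →ₗ[ℂ] B) (V w) +
        (X - C (algebraMap ℂ B (N : ℂ))) * V w * C (d w u0))
  have hE : ∀ c : ℂ, E.eval (algebraMap ℂ B c) = algebraMap ℂ B (b.eval c) * (ω * u0 ^ (N + 1)) -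
      u0 * algebraMap ℂ B (lin.eval c) * V0.eval (algebraMap ℂ B c) -
      ∑ w, (u0 * d w ((V w).eval (algebraMap ℂ B c)) +
        algebraMap ℂ B (c - N) * (V w).eval (algebraMap ℂ B c) * d w u0) := by
    intro c
    simp only [E, eval_sub, eval_mul, eval_C, eval_finsetSum, eval_add, eval_X, mapD_eval, map_sub]
    rw [eval_map, eval₂_at_apply, eval_map, eval₂_at_apply]
    rfl
  have h0 : E.eval (algebraMap ℂ B α) = 0 := by
    apply eval_zero_of_nat' E (N + 1)
    intro s hs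
    rw [hE]
    have e1 := hid s (by omega)
    rw [hV0 s (by omega)] at e1
    have ed : ∀ w, d w (x w s) = u0 ^ (s - N - 1) * (u0 * d w ((V w).eval (algebraMap ℂ B (s : ℂ))) +
        algebraMap ℂ B ((s : ℂ) - N) * (V w).eval (algebraMap ℂ B (s : ℂ)) * d w u0) := by
      intro w
      rw [hV w s (by omega), Derivation.leibniz, Derivation.leibniz_pow, smul_eq_mul, smul_eq_mul,
        nsmul_eq_mul, smul_eq_mul]
      have e4 : u0 ^ (s - N) = u0 ^ (s - N - 1) * u0 := by
        rw [← pow_succ]; congr 1; omega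
      have e5 : ((s - N : ℕ) : B) = algebraMap ℂ B ((s : ℂ) - N) := by
        rw [map_sub, map_natCast, map_natCast, Nat.cast_sub (by omega)]
      rw [e4, e5]
      ring
    rw [Finset.sum_congr rfl fun w _ => ed w, ← Finset.mul_sum] at e1
    have e3 : u0 ^ s = u0 ^ (s - N - 1) * u0 ^ (N + 1) := by
      rw [← pow_add]; congr 1; omega
    have e4 : u0 ^ (s - N) = u0 ^ (s - N - 1) * u0 := by
      rw [← pow_succ]; congr 1; omega
    rw [e3, e4] at e1
    have hne : u0 ^ (s - N - 1) ≠ 0 := pow_ne_zero _ hu0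
    refine mul_left_cancel₀ hne ?_
    rw [mul_zero, mul_sub, mul_sub]
    linear_combination e1
  refine ⟨N, fun w => (V w).eval (algebraMap ℂ B α), ?_⟩
  rw [hE, hα, map_zero] at h0
  linear_combination h0

end Pool.Agent.L5helper26.CD
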