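import Pool.Agent.L5helper26.CD.Rel
import Pool.Agent.L5helper26.CD.Fin

set_option autoImplicit false
set_option linter.unusedSectionVars false

/-! # The identity on a divisor -/

namespace Pool.Agent.L5helper26.CD

open MvPolynomial Pool.Agent.H628R4.TP Pool.Agent.W574.HS

section thd

variable {B κ : Type*} [CommRing B] [Algebra ℂ B]

/-- the derivations of the power series in the equation of the divisor -/
noncomputable def thd (d : κ → Derivation ℂ B B) :
    Option κ → Derivation ℂ (PowerSeries B) (PowerSeries B)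
  | none => dz B
  | some w => pd (d w)

theorem thd_comm (d : κ → Derivation ℂ B B) (hd : ∀ w w' a, d w (d w' a) = d w' (d w a))
    (o o' : Option κ) (g : PowerSeries B) : thd d o (thd d o' g) = thd d o' (thd d o g) := by
  cases o with
  | none =>
    cases o' with
    | none => rfl
    | some w => exact (pd_dz (d w) g).symm
  | some w =>
    cases o' with
    | none => exact pd_dz (d w) g
    | some w' => exact pd_comm' _ _ (hd w w') g

theorem thd_C (d : κ → Derivation ℂ B B) (y : B) (hy : ∀ w, d w y = 0) (o : Option κ) :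
    thd d o (PowerSeries.C y) = 0 := by
  cases o with
  | none => exact dz_C y
  | some w =>
    change pd (d w) (PowerSeries.C y) = 0
    rw [pd_C, hy, map_zero]

end thd

section ideals

variable {σ ι R : Type*} [CommRing R] [Algebra ℂ R]

theorem dvd_aeval_pow {σ ι : Type} (f : ι → MvPolynomial σ ℂ) (ξ : σ → R) (x : R)
    (h : ∀ j, x ∣ aeval ξ (f j)) (n : ℕ) (p : MvPolynomial σ ℂ)
    (hp : p ∈ Ideal.span (Set.range f) ^ n) : x ^ n ∣ aeval ξ p := by
  have h1 : Ideal.span (Set.range f) ≤
      (Ideal.span {x}).comap (aeval ξ : MvPolynomial σ ℂ →ₐ[ℂ] R) := by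
    rw [Ideal.span_le]
    rintro _ ⟨j, rfl⟩
    exact Ideal.mem_span_singleton.2 (h j)
  have h2 := (Ideal.pow_right_mono h1 n).trans (Ideal.le_comap_pow _ n)
  have h3 : aeval ξ p ∈ Ideal.span {x} ^ n := h2 hp
  rw [Ideal.span_singleton_pow] at h3
  exact Ideal.mem_span_singleton.1 h3

end ideals

variable {ι σ : Type} {κ B : Type*} [Fintype ι] [Fintype σ] [DecidableEq σ] [Fintype κ]
  [CommRing B] [IsDomain B] [Algebra ℂ B]

theorem psi_rename (y : ι → PowerSeries B) (ξ : σ → PowerSeries B) (q : MvPolynomial σ ℂ) :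
    psi y ξ (rename Sum.inr q) = aeval ξ q := by
  rw [psi, aeval_rename]
  rfl

/-- **The identity on a divisor.** -/
theorem chart_key (f : ι → MvPolynomial σ ℂ) (b : Polynomial ℂ)
    (hb : IsBFunction (univ f) ((Polynomial.X + 1) * b)) (p : MvPolynomial σ ℂ)
    (e : σ ≃ Option κ) (d : κ → Derivation ℂ B B)
    (hd : ∀ w w' a, d w (d w' a) = d w' (d w a)) (ξ : σ → PowerSeries B) (k a l : ℕ) (hl : l < a)
    (U0 U2 : PowerSeries B) (u : ι → PowerSeries B)
    (hJ : (Matrix.of fun t i => thd d (e t) (ξ i)).det = PowerSeries.X ^ k * U0)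
    (hdiv : ∀ j, aeval ξ (f j) = PowerSeries.X ^ a * u j)
    (hp : aeval ξ p = PowerSeries.X ^ l * U2)
    (y : ι → B) (hy : ∀ w j, d w (y j) = 0) (u0 : B)
    (hu0 : ∑ j, y j * PowerSeries.constantCoeff (u j) = u0) (hu0' : u0 ≠ 0) (α : ℂ)
    (hα : (a : ℂ) * α + (k + l + 1) = 0) : ∃ (M : ℕ) (V : κ → B),
      algebraMap ℂ B (b.eval α) *
        (PowerSeries.constantCoeff U0 * PowerSeries.constantCoeff U2) * u0 ^ (M + 1) =
        ∑ w, (u0 * d w (V w) + algebraMap ℂ B (α - M) * V w * d w u0) := by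
  classical
  obtain ⟨N, W, hW⟩ := rel f b hb p
  set ψ : MvPolynomial (ι ⊕ σ) ℂ →ₐ[ℂ] PowerSeries B :=
    psi (fun j => PowerSeries.C (y j)) ξ with hψ
  set θ : σ → Derivation ℂ (PowerSeries B) (PowerSeries B) := fun t => thd d (e t) with hθ
  let c : Option κ → σ → PowerSeries B := fun o i => cof θ ξ (e.symm o) i
  let E : Option κ → Polynomial (PowerSeries B) := fun o =>
    ∑ i, Polynomial.C (c o i) * (W i).map (ψ : MvPolynomial (ι ⊕ σ) ℂ →+* PowerSeries B)
  have hE : ∀ (o : Option κ) (s : ℂ), (E o).eval (algebraMap ℂ (PowerSeries B) s) =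
      ∑ i, c o i * ψ ((W i).eval (C s)) := by
    intro o s
    simp only [E, Polynomial.eval_finsetSum, Polynomial.eval_mul, Polynomial.eval_C]
    refine Finset.sum_congr rfl fun i _ => ?_
    congr 1
    have h1 : algebraMap ℂ (PowerSeries B) s =
        (ψ : MvPolynomial (ι ⊕ σ) ℂ →+* PowerSeries B) (C s) := (ψ.commutes s).symm
    rw [h1, Polynomial.eval_map, Polynomial.eval₂_at_apply]
    rfl
  set v : PowerSeries B := ∑ j, PowerSeries.C (y j) * u j with hv
  have hv0 : PowerSeries.constantCoeff v = u0 := by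
    rw [hv, map_sum, ← hu0]
    refine Finset.sum_congr rfl fun j _ => ?_
    rw [map_mul, PowerSeries.constantCoeff_C]
  have hF : ψ (univ f) = PowerSeries.X ^ a * v := by
    rw [univ, map_sum, hv, Finset.mul_sum]
    refine Finset.sum_congr rfl fun j _ => ?_
    have h1 : ψ (X (Sum.inl j)) = PowerSeries.C (y j) := aeval_X _ _
    rw [map_mul, h1, hψ, psi_rename, hdiv]
    ring
  have hr : ∀ (s : ℕ) (r : MvPolynomial (ι ⊕ σ) ℂ),
      r ∈ xt ι (Ideal.span (Set.range f) ^ (s + 1)) → PowerSeries.X ^ (a * (s + 1)) ∣ ψ r := by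
    intro s r hr
    refine xt_induction (P := fun r => PowerSeries.X ^ (a * (s + 1)) ∣ ψ r) ?_ ?_ ?_ r hr
    · rw [map_zero]; exact dvd_zero _
    · intro r r' h h'
      rw [map_add]
      exact dvd_add h h'
    · intro r q hq
      rw [map_mul, hψ, psi_rename, pow_mul]
      exact Dvd.dvd.mul_right (dvd_aeval_pow f ξ _ (fun j => ⟨u j, hdiv j⟩) _ q hq) _
  -- the divergence formula
  have hmain : ∀ s : ℕ, N ≤ s → ∃ R : PowerSeries B,
      PowerSeries.X ^ (a * s + k + l) * (algebraMap ℂ (PowerSeries B) (b.eval (s : ℂ)) *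
        (U0 * U2) * v ^ s) =
      ∑ o, thd d o (PowerSeries.X ^ (a * (s - N)) *
        (v ^ (s - N) * (E o).eval (algebraMap ℂ (PowerSeries B) (s : ℂ)))) +
        PowerSeries.X ^ (a * s + k + l + 1) * R := by
    intro s hs
    obtain ⟨r, hrm, hrel⟩ := hW s hs
    obtain ⟨R0, hR0⟩ := hr s r hrm
    have h1 := piola θ (fun s t g => thd_comm d hd (e s) (e t) g)
      (fun j => PowerSeries.C (y j)) ξ (fun t j => thd_C d (y j) (fun w => hy w j) (e t))
      (fun i => univ f ^ (s - N) * (W i).eval (C (s : ℂ)))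
    have h2 := congrArg ψ hrel
    rw [map_add] at h2
    rw [← hψ] at h1
    have h3 : ψ (∑ i, pderiv (Sum.inr i) (univ f ^ (s - N) * (W i).eval (C (s : ℂ)))) =
        PowerSeries.X ^ l * U2 * (algebraMap ℂ (PowerSeries B) (b.eval (s : ℂ)) *
          (PowerSeries.X ^ a * v) ^ s) - PowerSeries.X ^ (a * (s + 1)) * R0 := by
      rw [← hR0, eq_sub_iff_add_eq, ← h2, map_mul, map_mul, map_pow, hF]
      congr 1
      · rw [hψ, psi_rename, hp]
      · congr 1
        exact ψ.commutes _
    have hθJ : (Matrix.of fun t i => θ t (ξ i)).det = PowerSeries.X ^ k * U0 := hJ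
    rw [h3, hθJ] at h1
    have h4 : ∑ t, θ t (∑ i, cof θ ξ t i * ψ (univ f ^ (s - N) * (W i).eval (C (s : ℂ)))) =
        ∑ o, thd d o (PowerSeries.X ^ (a * (s - N)) *
          (v ^ (s - N) * (E o).eval (algebraMap ℂ (PowerSeries B) (s : ℂ)))) := by
      rw [← Equiv.sum_comp e]
      refine Finset.sum_congr rfl fun t _ => ?_
      change thd d (e t) _ = _
      congr 1
      rw [hE, Finset.mul_sum, Finset.mul_sum]
      refine Finset.sum_congr rfl fun i _ => ?_
      rw [map_mul, map_pow, hF]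
      change cof θ ξ t i * _ = _ * (_ * (cof θ ξ (e.symm (e t)) i * _))
      rw [e.symm_apply_apply, mul_pow, ← pow_mul]
      ring
    rw [h4] at h1
    obtain ⟨c', rfl⟩ : ∃ c', a = l + 1 + c' := ⟨a - l - 1, by omega⟩
    refine ⟨PowerSeries.X ^ c' * U0 * R0, ?_⟩
    rw [← h1]
    ring
  -- the coefficients
  have hc1 : ∀ o, Cls u0 (fun s => PowerSeries.coeff (a * N + k + l + (if o = none then 1 else 0))
      (v ^ (s - N) * (E o).eval (algebraMap ℂ (PowerSeries B) (s : ℂ)))) := by
    intro o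
    rw [← hv0]
    exact cls_coeff_poly v (E o) N _
  refine final_poly d u0 _ hu0' b
    (Polynomial.C (a : ℂ) * Polynomial.X + Polynomial.C ((k : ℂ) + l + 1))
    (fun s => PowerSeries.coeff (a * N + k + l + (if (none : Option κ) = none then 1 else 0))
      (v ^ (s - N) * (E none).eval (algebraMap ℂ (PowerSeries B) (s : ℂ))))
    (fun w s => PowerSeries.coeff (a * N + k + l + (if (some w : Option κ) = none then 1 else 0))
      (v ^ (s - N) * (E (some w)).eval (algebraMap ℂ (PowerSeries B) (s : ℂ))))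
    (hc1 none) (fun w => hc1 (some w)) N (fun s hs => ?_) α (by
      rw [Polynomial.eval_add, Polynomial.eval_mul, Polynomial.eval_C, Polynomial.eval_X,
        Polynomial.eval_C]
      exact hα)
  obtain ⟨R, hR⟩ := hmain s hs
  have h1 := congrArg (PowerSeries.coeff (a * s + k + l)) hR
  rw [map_add, map_sum, Fintype.sum_option] at h1
  have hasN : a * s = a * N + a * (s - N) := by
    rw [← mul_add]; congr 1; omega
  have e1 : PowerSeries.coeff (a * s + k + l) (PowerSeries.X ^ (a * s + k + l) *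
      (algebraMap ℂ (PowerSeries B) (b.eval (s : ℂ)) * (U0 * U2) * v ^ s)) =
      algebraMap ℂ B (b.eval (s : ℂ)) *
        (PowerSeries.constantCoeff U0 * PowerSeries.constantCoeff U2) * u0 ^ s := by
    rw [PowerSeries.coeff_X_pow_mul', if_pos le_rfl, Nat.sub_self,
      PowerSeries.coeff_zero_eq_constantCoeff_apply, map_mul, map_mul, map_mul, map_pow, hv0]
    rfl
  have e2 : PowerSeries.coeff (a * s + k + l) (PowerSeries.X ^ (a * s + k + l + 1) * R) = 0 := by
    rw [PowerSeries.coeff_X_pow_mul', if_neg (by omega)]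
  have e3 : PowerSeries.coeff (a * s + k + l) (thd d none (PowerSeries.X ^ (a * (s - N)) *
      (v ^ (s - N) * (E none).eval (algebraMap ℂ (PowerSeries B) (s : ℂ))))) =
      algebraMap ℂ B ((a : ℂ) * s + (k + l + 1)) * PowerSeries.coeff (a * N + k + l + 1)
        (v ^ (s - N) * (E none).eval (algebraMap ℂ (PowerSeries B) (s : ℂ))) := by
    change PowerSeries.coeff (a * s + k + l) (dz B _) = _
    rw [coeff_dz, Algebra.smul_def, PowerSeries.coeff_X_pow_mul', if_pos (by omega)]
    congr 2
    · push_cast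
      ring
    · congr 1
      omega
  have e4 : ∀ w, PowerSeries.coeff (a * s + k + l) (thd d (some w) (PowerSeries.X ^ (a * (s - N)) *
      (v ^ (s - N) * (E (some w)).eval (algebraMap ℂ (PowerSeries B) (s : ℂ))))) =
      d w (PowerSeries.coeff (a * N + k + l)
        (v ^ (s - N) * (E (some w)).eval (algebraMap ℂ (PowerSeries B) (s : ℂ)))) := by
    intro w
    change PowerSeries.coeff (a * s + k + l) (pd (d w) _) = _
    rw [coeff_pd, PowerSeries.coeff_X_pow_mul', if_pos (by omega)]
    congr 2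
    congr 1
    omega
  rw [e1, e2, e3, Finset.sum_congr rfl fun w _ => e4 w, add_zero] at h1
  rw [h1]
  simp only [if_true, reduceCtorEq, if_false, add_zero, Polynomial.eval_add, Polynomial.eval_mul,
    Polynomial.eval_C, Polynomial.eval_X]

end Pool.Agent.L5helper26.CD
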