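import Pool.Agent.L5helper26.CD.Pio

set_option autoImplicit false
set_option linter.unusedSectionVars false

/-! # Functions of `s` of the form `u₀ ^ (s - N) V(s)` -/

namespace Pool.Agent.L5helper26.CD

open Polynomial

variable {B : Type*} [CommRing B] [Algebra ℂ B]

/-- a linear map applied to the coefficients -/
noncomputable def mapD {B' : Type*} [CommRing B'] [Algebra ℂ B'] (δ : B →ₗ[ℂ] B') (U : B[X]) :
    B'[X] := ∑ i ∈ U.support, monomial i (δ (U.coeff i))

theorem mapD_eval {B' : Type*} [CommRing B'] [Algebra ℂ B'] (δ : B →ₗ[ℂ] B') (U : B[X]) (c : ℂ) :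
    (mapD δ U).eval (algebraMap ℂ B' c) = δ (U.eval (algebraMap ℂ B c)) := by
  rw [mapD, eval_finsetSum, eval_eq_sum, sum_def, map_sum]
  refine Finset.sum_congr rfl fun i _ => ?_
  rw [eval_monomial, ← map_pow, ← map_pow, mul_comm, mul_comm (U.coeff i), ← Algebra.smul_def,
    ← Algebra.smul_def, map_smul]

/-- the form `u₀ ^ (s - N) V(s)` for all large `s` -/
def Cls (u0 : B) (x : ℕ → B) : Prop :=
  ∃ (N : ℕ) (V : B[X]), ∀ s : ℕ, N ≤ s → x s = u0 ^ (s - N) * V.eval (algebraMap ℂ B (s : ℂ))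

variable {u0 : B}

theorem Cls.congr {x y : ℕ → B} (N : ℕ) (h : ∀ s, N ≤ s → x s = y s) (hy : Cls u0 y) :
    Cls u0 x := by
  obtain ⟨M, V, hV⟩ := hy
  refine ⟨N + M, C (u0 ^ N) * V, fun s hs => ?_⟩
  rw [h s (by omega), hV s (by omega), eval_mul, eval_C, ← mul_assoc, ← pow_add]
  congr 2
  omega

theorem Cls.raise {x : ℕ → B} (hx : Cls u0 x) : ∃ N0 : ℕ, ∀ N : ℕ, N0 ≤ N → ∃ V : B[X],
    ∀ s : ℕ, N ≤ s → x s = u0 ^ (s - N) * V.eval (algebraMap ℂ B (s : ℂ)) := by
  obtain ⟨M, V, hV⟩ := hx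
  refine ⟨M, fun N hN => ⟨C (u0 ^ (N - M)) * V, fun s hs => ?_⟩⟩
  rw [hV s (by omega), eval_mul, eval_C, ← mul_assoc, ← pow_add]
  congr 2
  omega

theorem Cls.zero : Cls u0 (fun _ => (0 : B)) := ⟨0, 0, fun s _ => by rw [eval_zero, mul_zero]⟩

theorem Cls.add {x y : ℕ → B} (hx : Cls u0 x) (hy : Cls u0 y) : Cls u0 (fun s => x s + y s) := by
  obtain ⟨N, hN⟩ := hx.raise
  obtain ⟨M, hM⟩ := hy.raise
  obtain ⟨V, hV⟩ := hN (N + M) (by omega)
  obtain ⟨W, hW⟩ := hM (N + M) (by omega)
  refine ⟨N + M, V + W, fun s hs => ?_⟩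
  beta_reduce
  rw [hV s hs, hW s hs, eval_add, mul_add]

theorem Cls.sum {ι : Type*} (s : Finset ι) (x : ι → ℕ → B) (h : ∀ i ∈ s, Cls u0 (x i)) :
    Cls u0 (fun n => ∑ i ∈ s, x i n) := by
  classical
  induction s using Finset.induction_on with
  | empty => simpa using Cls.zero
  | insert a s ha ih =>
    simp only [Finset.sum_insert ha]
    exact (h a (Finset.mem_insert_self _ _)).add
      (ih fun i hi => h i (Finset.mem_insert_of_mem hi))

theorem Cls.mul {x : ℕ → B} (hx : Cls u0 x) (W : B[X]) :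
    Cls u0 (fun s => x s * W.eval (algebraMap ℂ B (s : ℂ))) := by
  obtain ⟨N, V, hV⟩ := hx
  refine ⟨N, V * W, fun s hs => ?_⟩
  beta_reduce
  rw [hV s hs, eval_mul, mul_assoc]

theorem Cls.mul_const {x : ℕ → B} (hx : Cls u0 x) (c : B) : Cls u0 (fun s => x s * c) := by
  have h := hx.mul (C c)
  simpa only [eval_C] using h

/-- the binomial coefficients -/
theorem cls_choose (N j : ℕ) :
    Cls u0 (fun s => ((s - N).choose j : B) * u0 ^ (s - N - j)) := by
  refine ⟨N + j, (((descPochhammer ℂ j).comp (X - C (N : ℂ))) * C ((j.factorial : ℂ)⁻¹)).map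
    (algebraMap ℂ B), fun s hs => ?_⟩
  have h1 : (((s - N).choose j : ℕ) : ℂ) =
      (((descPochhammer ℂ j).comp (X - C (N : ℂ))) * C ((j.factorial : ℂ)⁻¹)).eval (s : ℂ) := by
    rw [Nat.cast_choose_eq_descPochhammer_div, eval_mul, eval_comp, eval_sub, eval_X, eval_C,
      eval_C, div_eq_mul_inv, Nat.cast_sub (by omega)]
  have h2 : (((s - N).choose j : ℕ) : B) = algebraMap ℂ B (((s - N).choose j : ℕ) : ℂ) := by
    rw [map_natCast]
  beta_reduce
  rw [eval_map_algebraMap_at, ← h1, ← h2, mul_comm, Nat.sub_sub]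
where
  eval_map_algebraMap_at (q : ℂ[X]) (c : ℂ) :
      (q.map (algebraMap ℂ B)).eval (algebraMap ℂ B c) = algebraMap ℂ B (q.eval c) := by
    rw [eval_map, eval₂_at_apply]

theorem cls_coeff (u g : PowerSeries B) (N m : ℕ) :
    Cls (PowerSeries.constantCoeff u) (fun s => PowerSeries.coeff m (u ^ (s - N) * g)) := by
  set u0 := PowerSeries.constantCoeff u with hu0
  obtain ⟨v, hv⟩ : PowerSeries.X ∣ u - PowerSeries.C u0 := by
    rw [PowerSeries.X_dvd_iff, map_sub, PowerSeries.constantCoeff_C, ← hu0, sub_self]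
  have hu : u = PowerSeries.X * v + PowerSeries.C u0 := by rw [← hv]; ring
  have h1 : Cls u0 (fun s => ∑ j ∈ Finset.range (m + 1),
      (((s - N).choose j : B) * u0 ^ (s - N - j)) * PowerSeries.coeff (m - j) (v ^ j * g)) :=
    Cls.sum _ _ fun j _ => (cls_choose N j).mul_const _
  refine Cls.congr (N + m) (fun s hs => ?_) h1
  have h2 : u ^ (s - N) = ∑ j ∈ Finset.range (s - N + 1), (PowerSeries.X * v) ^ j *
      (PowerSeries.C u0) ^ (s - N - j) * ((s - N).choose j : PowerSeries B) := by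
    conv_lhs => rw [hu]
    exact add_pow _ _ _
  rw [h2, Finset.sum_mul, map_sum]
  symm
  have h3 : ∀ j, PowerSeries.coeff m ((PowerSeries.X * v) ^ j *
      (PowerSeries.C u0) ^ (s - N - j) * ((s - N).choose j : PowerSeries B) * g) =
      if j ≤ m then (((s - N).choose j : B) * u0 ^ (s - N - j)) *
        PowerSeries.coeff (m - j) (v ^ j * g) else 0 := by
    intro j
    have e1 : (PowerSeries.X * v) ^ j * (PowerSeries.C u0) ^ (s - N - j) *
        ((s - N).choose j : PowerSeries B) * g = PowerSeries.X ^ j *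
          (PowerSeries.C (((s - N).choose j : B) * u0 ^ (s - N - j)) * (v ^ j * g)) := by
      rw [map_mul, map_pow, map_natCast, mul_pow]
      ring
    rw [e1, PowerSeries.coeff_X_pow_mul', PowerSeries.coeff_C_mul]
  rw [Finset.sum_congr rfl fun j _ => h3 j]
  have hsub : Finset.range (m + 1) ⊆ Finset.range (s - N + 1) := by
    intro j hj
    rw [Finset.mem_range] at hj ⊢
    omega
  rw [← Finset.sum_subset hsub]
  · refine Finset.sum_congr rfl fun j hj => ?_
    rw [Finset.mem_range] at hj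
    rw [if_pos (by omega)]
  · intro j _ hj
    rw [Finset.mem_range] at hj
    rw [if_neg (by omega)]

theorem cls_coeff_poly (u : PowerSeries B) (E : Polynomial (PowerSeries B)) (N m : ℕ) :
    Cls (PowerSeries.constantCoeff u) (fun s => PowerSeries.coeff m
      (u ^ (s - N) * E.eval (algebraMap ℂ (PowerSeries B) (s : ℂ)))) := by
  have h1 : Cls (PowerSeries.constantCoeff u) (fun s => ∑ i ∈ E.support,
      PowerSeries.coeff m (u ^ (s - N) * E.coeff i) *
        (X ^ i : B[X]).eval (algebraMap ℂ B (s : ℂ))) :=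
    Cls.sum _ _ fun i _ => (cls_coeff u (E.coeff i) N m).mul _
  refine Cls.congr 0 (fun s _ => ?_) h1
  rw [eval_eq_sum, sum_def, Finset.mul_sum, map_sum]
  refine Finset.sum_congr rfl fun i _ => ?_
  have e1 : algebraMap ℂ (PowerSeries B) (s : ℂ) ^ i =
      PowerSeries.C ((algebraMap ℂ B (s : ℂ)) ^ i) := by
    rw [map_natCast, map_natCast, map_pow, map_natCast]
  rw [e1, eval_pow, eval_X, ← mul_assoc, PowerSeries.coeff_mul_C]

/-- a polynomial with infinitely many zeros -/
theorem eval_zero_of_nat' [IsDomain B] (U : B[X]) (N : ℕ)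
    (h : ∀ m : ℕ, N ≤ m → U.eval (algebraMap ℂ B (m : ℂ)) = 0) (c : ℂ) :
    U.eval (algebraMap ℂ B c) = 0 := by
  have : U = 0 := by
    apply Polynomial.eq_zero_of_infinite_isRoot
    refine Set.infinite_of_injective_forall_mem
      (f := fun m : ℕ => algebraMap ℂ B ((m + N : ℕ) : ℂ)) ?_ ?_
    · intro a b hab
      have := (algebraMap ℂ B).injective hab
      have h2 : a + N = b + N := by exact_mod_cast this
      omega
    · intro m
      exact h _ (by omega)
  rw [this, Polynomial.eval_zero]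

end Pool.Agent.L5helper26.CD
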