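import Pool.Agent.L5helper26.CD.Fun

set_option autoImplicit false
set_option linter.unusedSectionVars false

/-! # The main theorem for functions of the quotients -/

namespace Pool.Agent.L5helper26.CD

open Pool.Agent.H628R4.TP Pool.Agent.W574.HS Pool.Agent.L5helper26.CP

section defs

variable {κ : Type} [Fintype κ]

/-- the logarithmic partial derivatives: `w ∂ / ∂w` if `A w ≠ 0`, and `∂ / ∂w` otherwise -/
noncomputable def lgk (A : κ → ℕ) (w : κ) (a : MvPowerSeries κ ℂ) : MvPowerSeries κ ℂ :=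
  (if A w = 0 then 1 else MvPowerSeries.X w) * MvPowerSeries.pderiv ℂ w a

/-- the monomial with the exponents `A` -/
noncomputable def mnk (A : κ → ℕ) : MvPowerSeries κ ℂ := ∏ w, MvPowerSeries.X w ^ A w

end defs

section aux

variable {κ μ : Type} [Fintype κ] [DecidableEq κ] [Fintype μ] [DecidableEq μ]


theorem ren_mnk {τ : Type} [Fintype τ] [DecidableEq τ] (A : κ → ℕ) :
    ren κ τ (mnk A) = mon A := by
  rw [mnk, map_prod, mon]
  refine Finset.prod_congr rfl fun w _ => ?_
  rw [map_pow, ren_X]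

theorem lg_ren {τ : Type} [Fintype τ] [DecidableEq τ] (A : κ → ℕ) (w : κ)
    (a : MvPowerSeries κ ℂ) : lg A (Sum.inl w : κ ⊕ τ) (ren κ τ a) = ren κ τ (lgk A w a) := by
  rw [lg_apply, pd_ren, lgk, map_mul]
  congr 1
  change (if A w = 0 then 1 else MvPowerSeries.X (Sum.inl w)) = _
  split_ifs
  · rw [map_one]
  · rw [ren_X]

/-- the inclusion for power series in the equation of `E` -/
noncomputable def renP (κ τ : Type) [Fintype κ] :
    PowerSeries (MvPowerSeries κ ℂ) →ₐ[ℂ] PowerSeries (MvPowerSeries (κ ⊕ τ) ℂ) :=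
  PowerSeries.mapAlgHom (ren κ τ)

theorem coeff_renP {τ : Type} (g : PowerSeries (MvPowerSeries κ ℂ)) (n : ℕ) :
    PowerSeries.coeff n (renP κ τ g) = ren κ τ (PowerSeries.coeff n g) := by
  rw [renP, PowerSeries.mapAlgHom_apply]
  exact PowerSeries.coeff_map _ _ _

theorem cc_renP {τ : Type} (g : PowerSeries (MvPowerSeries κ ℂ)) :
    PowerSeries.constantCoeff (renP κ τ g) = ren κ τ (PowerSeries.constantCoeff g) := by
  rw [← PowerSeries.coeff_zero_eq_constantCoeff_apply, coeff_renP,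
    PowerSeries.coeff_zero_eq_constantCoeff_apply]

theorem renP_C {τ : Type} (a : MvPowerSeries κ ℂ) :
    renP κ τ (PowerSeries.C a) = PowerSeries.C (ren κ τ a) := by
  rw [renP, PowerSeries.mapAlgHom_apply]
  exact PowerSeries.map_C _ _

theorem renP_X {τ : Type} :
    renP κ τ (PowerSeries.X : PowerSeries (MvPowerSeries κ ℂ)) = PowerSeries.X := by
  rw [renP, PowerSeries.mapAlgHom_apply]
  exact PowerSeries.map_X _

theorem thd_renP {τ : Type} [Fintype τ] [DecidableEq τ] (o : Option κ)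
    (g : PowerSeries (MvPowerSeries κ ℂ)) :
    thd (fun w : κ => MvPowerSeries.pderiv ℂ (Sum.inl w : κ ⊕ τ)) o (renP κ τ g) =
      renP κ τ (thd (fun w : κ => MvPowerSeries.pderiv ℂ w) o g) := by
  ext n : 1
  cases o with
  | none =>
    change PowerSeries.coeff n (dz _ (renP κ τ g)) = PowerSeries.coeff n (renP κ τ (dz _ g))
    rw [coeff_dz, coeff_renP, coeff_renP, coeff_dz, map_smul]
  | some w =>
    change PowerSeries.coeff n (pd _ (renP κ τ g)) = PowerSeries.coeff n (renP κ τ (pd _ g))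
    rw [coeff_pd, coeff_renP, coeff_renP, coeff_pd, pd_ren]

theorem aeval_const {μ R : Type*} [CommRing R] [Algebra ℂ R] (c : μ → ℂ)
    (q : MvPolynomial μ ℂ) : MvPolynomial.aeval (fun i => algebraMap ℂ R (c i)) q =
      algebraMap ℂ R (MvPolynomial.eval c q) := by
  induction q using MvPolynomial.induction_on with
  | C a => rw [MvPolynomial.aeval_C, MvPolynomial.eval_C]
  | add p q hp hq => rw [map_add, map_add, map_add, hp, hq]
  | mul_X p k hp =>
    rw [map_mul, map_mul, map_mul, hp, MvPolynomial.aeval_X, MvPolynomial.eval_X]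

theorem var_mem (a : MvPowerSeries κ ℂ) (ha : MvPowerSeries.constantCoeff a = 0)
    (I : Ideal (MvPowerSeries κ ℂ)) (hI : ∀ w, MvPowerSeries.X w ∈ I) : a ∈ I := by
  rw [eq_sum_dv a ha]
  exact Ideal.sum_mem _ fun m _ => Ideal.mul_mem_left _ _ (hI m)

end aux

variable {ι σ κ μ : Type} [Fintype ι] [DecidableEq ι] [Fintype σ] [DecidableEq σ]
  [Fintype κ] [DecidableEq κ] [Fintype μ] [DecidableEq μ]

/-- **Isolated critical points on divisors**: functions of the quotients of generators. -/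
theorem crit_fun (f : ι → MvPolynomial σ ℂ) (b : Polynomial ℂ)
    (hb : IsBFunction (univ f) ((Polynomial.X + 1) * b)) (p : MvPolynomial σ ℂ)
    (e : σ ≃ Option κ) (ξ : σ → PowerSeries (MvPowerSeries κ ℂ)) (k a l : ℕ) (hl : l < a)
    (A K0 K1 : κ → ℕ) (hK0 : ∀ w, A w = 0 → K0 w = 0) (hK1 : ∀ w, A w = 0 → K1 w = 0)
    (U0 U2 : PowerSeries (MvPowerSeries κ ℂ)) (u : ι → PowerSeries (MvPowerSeries κ ℂ))
    (hJ : (Matrix.of fun t i => thd (fun w : κ => MvPowerSeries.pderiv ℂ w)
      (e t) (ξ i)).det = PowerSeries.X ^ k * (PowerSeries.C (mnk K0) * U0))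
    (hdiv : ∀ j, MvPolynomial.aeval ξ (f j) = PowerSeries.X ^ a * (PowerSeries.C (mnk A) * u j))
    (hp : MvPolynomial.aeval ξ p = PowerSeries.X ^ l * (PowerSeries.C (mnk K1) * U2))
    (j0 : ι) (hj0 : IsUnit (PowerSeries.constantCoeff (u j0)))
    (φ : μ → MvPowerSeries κ ℂ) (jm : μ → ι)
    (hφ : ∀ i, φ i * PowerSeries.constantCoeff (u j0) = PowerSeries.constantCoeff (u (jm i)))
    (q : MvPolynomial μ ℂ) (H : MvPowerSeries κ ℂ) (hH : MvPolynomial.aeval φ q = H)
    (α : ℂ) (hα : (a : ℂ) * α + (k + l + 1) = 0)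
    (hε : ∀ w, A w ≠ 0 → ∀ n : ℕ, 0 < n → (K0 w : ℂ) + K1 w + 1 + α * A w ≠ n)
    (hiso : ∀ w, MvPowerSeries.X w ∈ (Ideal.span (Set.range fun w => lgk A w H)).radical)
    (hω : PowerSeries.constantCoeff U0 * PowerSeries.constantCoeff U2 ∉
      Ideal.span (Set.range fun w => lgk A w H)) : b.eval α = 0 := by
  classical
  set R := ren κ (μ ⊕ μ) with hR
  set RP := renP κ (μ ⊕ μ) with hRP
  -- the constants
  let c : μ → ℂ := fun i => MvPowerSeries.constantCoeff (φ i)
  let s0 : μ → ℂ := fun i => MvPolynomial.eval c (MvPolynomial.pderiv i q)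
  let S : μ → MvPowerSeries (κ ⊕ (μ ⊕ μ)) ℂ := fun i =>
    algebraMap ℂ _ (s0 i) + MvPowerSeries.X (Sum.inr (Sum.inl i))
  let E : μ → MvPowerSeries (κ ⊕ (μ ⊕ μ)) ℂ := fun i =>
    algebraMap ℂ _ (c i) + MvPowerSeries.X (Sum.inr (Sum.inr i))
  let Y0 : MvPowerSeries (κ ⊕ (μ ⊕ μ)) ℂ := MvPolynomial.aeval E q - ∑ i, S i * E i
  let G : MvPowerSeries (κ ⊕ (μ ⊕ μ)) ℂ := ∑ i, S i * R (φ i) + Y0
  let Y : ι → MvPowerSeries (κ ⊕ (μ ⊕ μ)) ℂ := fun j =>
    ∑ i, (if jm i = j then S i else 0) + (if j = j0 then Y0 else 0)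
  have hdS : ∀ (t : κ ⊕ (μ ⊕ μ)) i, t ≠ Sum.inr (Sum.inl i) →
      MvPowerSeries.pderiv ℂ t (S i) = 0 := by
    intro t i h
    rw [map_add, Derivation.map_algebraMap, MvPowerSeries.pderiv_X_of_ne h.symm, add_zero]
  have hdE : ∀ (t : κ ⊕ (μ ⊕ μ)) i, t ≠ Sum.inr (Sum.inr i) →
      MvPowerSeries.pderiv ℂ t (E i) = 0 := by
    intro t i h
    rw [map_add, Derivation.map_algebraMap, MvPowerSeries.pderiv_X_of_ne h.symm, add_zero]
  have hdS' : ∀ i, MvPowerSeries.pderiv ℂ (Sum.inr (Sum.inl i)) (S i) = 1 := by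
    intro i
    rw [map_add, Derivation.map_algebraMap, MvPowerSeries.pderiv_X_self, zero_add]
  have hdE' : ∀ i, MvPowerSeries.pderiv ℂ (Sum.inr (Sum.inr i)) (E i) = 1 := by
    intro i
    rw [map_add, Derivation.map_algebraMap, MvPowerSeries.pderiv_X_self, zero_add]
  have hdY0 : ∀ w : κ, MvPowerSeries.pderiv ℂ (Sum.inl w) Y0 = 0 := by
    intro w
    rw [map_sub, der_aeval, map_sum]
    have h1 : ∀ i, MvPowerSeries.pderiv ℂ (Sum.inl w) (S i * E i) = 0 := by
      intro i
      rw [Derivation.leibniz, hdS _ _ (by simp), hdE _ _ (by simp), smul_zero, smul_zero,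
        add_zero]
    rw [Finset.sum_eq_zero fun i _ => h1 i, sub_zero]
    refine Finset.sum_eq_zero fun i _ => ?_
    rw [hdE _ _ (by simp), mul_zero]
  -- the logarithmic partial derivatives of `G`
  have hG1 : ∀ i, lg (τ := μ ⊕ μ) (κ := κ) A (Sum.inr (Sum.inl i)) G = R (φ i) - E i := by
    intro i
    rw [lg_apply]
    change 1 * _ = _
    rw [one_mul, map_add, map_sum, map_sub, der_aeval, map_sum]
    have h1 : ∑ i', MvPowerSeries.pderiv ℂ (Sum.inr (Sum.inl i)) (S i' * R (φ i')) = R (φ i) := by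
      rw [Finset.sum_eq_single i]
      · rw [Derivation.leibniz, hdS', pd_ren_inr, smul_zero, zero_add, smul_eq_mul, mul_one]
      · intro i' _ hi
        rw [Derivation.leibniz, hdS _ _ (by simpa using hi.symm), pd_ren_inr, smul_zero, smul_zero,
          add_zero]
      · intro h; exact absurd (Finset.mem_univ i) h
    have h2 : ∑ i', MvPowerSeries.pderiv ℂ (Sum.inr (Sum.inl i)) (S i' * E i') = E i := by
      rw [Finset.sum_eq_single i]
      · rw [Derivation.leibniz, hdS', hdE _ _ (by simp), smul_zero, zero_add, smul_eq_mul, mul_one]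
      · intro i' _ hi
        rw [Derivation.leibniz, hdS _ _ (by simpa using hi.symm), hdE _ _ (by simp), smul_zero,
          smul_zero, add_zero]
      · intro h; exact absurd (Finset.mem_univ i) h
    have h3 : ∑ i', MvPolynomial.aeval E (MvPolynomial.pderiv i' q) *
        MvPowerSeries.pderiv ℂ (Sum.inr (Sum.inl i)) (E i') = 0 :=
      Finset.sum_eq_zero fun i' _ => by rw [hdE _ _ (by simp), mul_zero]
    rw [h1, h2, h3]
    ring
  have hG2 : ∀ i, lg (τ := μ ⊕ μ) (κ := κ) A (Sum.inr (Sum.inr i)) G =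
      MvPolynomial.aeval E (MvPolynomial.pderiv i q) - S i := by
    intro i
    rw [lg_apply]
    change 1 * _ = _
    rw [one_mul, map_add, map_sum, map_sub, der_aeval, map_sum]
    have h1 : ∑ i', MvPowerSeries.pderiv ℂ (Sum.inr (Sum.inr i)) (S i' * R (φ i')) = 0 := by
      refine Finset.sum_eq_zero fun i' _ => ?_
      rw [Derivation.leibniz, hdS _ _ (by simp), pd_ren_inr, smul_zero, smul_zero, add_zero]
    have h2 : ∑ i', MvPowerSeries.pderiv ℂ (Sum.inr (Sum.inr i)) (S i' * E i') = S i := by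
      rw [Finset.sum_eq_single i]
      · rw [Derivation.leibniz, hdS _ _ (by simp), hdE', smul_zero, add_zero, smul_eq_mul, mul_one]
      · intro i' _ hi
        rw [Derivation.leibniz, hdS _ _ (by simp), hdE _ _ (by simpa using hi.symm), smul_zero,
          smul_zero, add_zero]
      · intro h; exact absurd (Finset.mem_univ i) h
    have h3 : ∑ i', MvPolynomial.aeval E (MvPolynomial.pderiv i' q) *
        MvPowerSeries.pderiv ℂ (Sum.inr (Sum.inr i)) (E i') =
        MvPolynomial.aeval E (MvPolynomial.pderiv i q) := by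
      rw [Finset.sum_eq_single i]
      · rw [hdE', mul_one]
      · intro i' _ hi
        rw [hdE _ _ (by simpa using hi.symm), mul_zero]
      · intro h; exact absurd (Finset.mem_univ i) h
    rw [h1, h2, h3]
    ring
  have hG3 : ∀ w : κ, lg (τ := μ ⊕ μ) A (Sum.inl w) G = ∑ i, S i * R (lgk A w (φ i)) := by
    intro w
    rw [lg_apply, map_add, hdY0, add_zero, map_sum, Finset.mul_sum]
    refine Finset.sum_congr rfl fun i _ => ?_
    rw [Derivation.leibniz, hdS _ _ (by simp), smul_zero, add_zero, smul_eq_mul, hR, ← lg_ren,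
      lg_apply]
    ring
  have hlgH : ∀ w, lgk A w H =
      ∑ i, MvPolynomial.aeval φ (MvPolynomial.pderiv i q) * lgk A w (φ i) := by
    intro w
    rw [lgk, ← hH, der_aeval, Finset.mul_sum]
    refine Finset.sum_congr rfl fun i _ => ?_
    rw [lgk]
    ring
  -- the Jacobian ideals
  set J : Ideal (MvPowerSeries κ ℂ) := Ideal.span (Set.range fun w => lgk A w H) with hJdef
  set J' : Ideal (MvPowerSeries (κ ⊕ (μ ⊕ μ)) ℂ) := Ideal.span (Set.range fun i => lg A i G)
    with hJ'
  have m1 : ∀ i, R (φ i) - E i ∈ J' := fun i => by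
    rw [← hG1]
    exact Ideal.subset_span ⟨_, rfl⟩
  have m2 : ∀ i, MvPolynomial.aeval E (MvPolynomial.pderiv i q) - S i ∈ J' := fun i => by
    rw [← hG2]
    exact Ideal.subset_span ⟨_, rfl⟩
  have m3 : ∀ w, ∑ i, S i * R (lgk A w (φ i)) ∈ J' := fun w => by
    rw [← hG3]
    exact Ideal.subset_span ⟨_, rfl⟩
  have hRq : ∀ q' : MvPolynomial μ ℂ, R (MvPolynomial.aeval φ q') =
      MvPolynomial.aeval (fun i => R (φ i)) q' := fun q' => MvPolynomial.comp_aeval_apply φ R q'
  have m4 : ∀ w, R (lgk A w H) ∈ J' := by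
    intro w
    have h1 : R (lgk A w H) = ∑ i, S i * R (lgk A w (φ i)) +
        ∑ i, (MvPolynomial.aeval (fun i => R (φ i)) (MvPolynomial.pderiv i q) -
          MvPolynomial.aeval E (MvPolynomial.pderiv i q)) * R (lgk A w (φ i)) +
        ∑ i, (MvPolynomial.aeval E (MvPolynomial.pderiv i q) - S i) * R (lgk A w (φ i)) := by
      rw [hlgH, map_sum, ← Finset.sum_add_distrib, ← Finset.sum_add_distrib]
      refine Finset.sum_congr rfl fun i _ => ?_
      rw [map_mul, hRq]
      ring
    rw [h1]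
    refine Ideal.add_mem _ (Ideal.add_mem _ (m3 w) (Ideal.sum_mem _ fun i _ => ?_))
      (Ideal.sum_mem _ fun i _ => Ideal.mul_mem_right _ _ (m2 i))
    exact Ideal.mul_mem_right _ _ (aeval_sub_mem J' _ _ m1 _)
  have m5 : ∀ g ∈ J, R g ∈ J' := by
    intro g hg
    have h1 : J ≤ J'.comap R := by
      rw [hJdef, Ideal.span_le]
      rintro _ ⟨w, rfl⟩
      exact m4 w
    exact h1 hg
  have r1 : ∀ w, (MvPowerSeries.X (Sum.inl w) : MvPowerSeries (κ ⊕ (μ ⊕ μ)) ℂ) ∈ J'.radical := by
    intro w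
    obtain ⟨M, hM⟩ := hiso w
    refine ⟨M, ?_⟩
    have h1 := m5 _ hM
    rwa [map_pow, hR, ren_X] at h1
  have r2 : ∀ i, R (φ i) - algebraMap ℂ _ (c i) ∈ J'.radical := by
    intro i
    have h1 : φ i - algebraMap ℂ _ (c i) ∈ (J'.radical).comap R := by
      refine var_mem _ ?_ _ fun w => ?_
      · rw [map_sub]
        exact sub_self _
      · rw [Ideal.mem_comap, hR, ren_X]
        exact r1 w
    rw [Ideal.mem_comap, map_sub, AlgHom.commutes] at h1
    exact h1
  have r3 : ∀ i, (MvPowerSeries.X (Sum.inr (Sum.inr i)) : MvPowerSeries (κ ⊕ (μ ⊕ μ)) ℂ) ∈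
      J'.radical := by
    intro i
    have h1 : (MvPowerSeries.X (Sum.inr (Sum.inr i)) : MvPowerSeries (κ ⊕ (μ ⊕ μ)) ℂ) =
        (R (φ i) - algebraMap ℂ _ (c i)) - (R (φ i) - E i) := by
      simp only [E]
      ring
    rw [h1]
    exact Ideal.sub_mem _ (r2 i) (Ideal.le_radical (m1 i))
  have r4 : ∀ i, (MvPowerSeries.X (Sum.inr (Sum.inl i)) : MvPowerSeries (κ ⊕ (μ ⊕ μ)) ℂ) ∈
      J'.radical := by
    intro i
    have h1 : (MvPowerSeries.X (Sum.inr (Sum.inl i)) : MvPowerSeries (κ ⊕ (μ ⊕ μ)) ℂ) =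
        (MvPolynomial.aeval E (MvPolynomial.pderiv i q) - MvPolynomial.aeval
          (fun i => algebraMap ℂ (MvPowerSeries (κ ⊕ (μ ⊕ μ)) ℂ) (c i))
            (MvPolynomial.pderiv i q)) -
        (MvPolynomial.aeval E (MvPolynomial.pderiv i q) - S i) := by
      have h2 : MvPolynomial.aeval (fun i => algebraMap ℂ (MvPowerSeries (κ ⊕ (μ ⊕ μ)) ℂ) (c i))
          (MvPolynomial.pderiv i q) = algebraMap ℂ _ (s0 i) := by
        exact aeval_const c _
      rw [h2]
      simp only [S]
      ring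
    rw [h1]
    refine Ideal.sub_mem _ (aeval_sub_mem _ _ _ (fun i => ?_) _) (Ideal.le_radical (m2 i))
    have h2 : E i - algebraMap ℂ _ (c i) = MvPowerSeries.X (Sum.inr (Sum.inr i)) := by
      simp only [E]
      ring
    rw [h2]
    exact r3 i
  have hiso' : ∀ i, ∃ M : ℕ, (MvPowerSeries.X i : MvPowerSeries (κ ⊕ (μ ⊕ μ)) ℂ) ^ M ∈ J' := by
    intro i
    rcases i with w | i | i
    · exact r1 w
    · exact r4 i
    · exact r3 i
  -- the retraction
  let cc : κ ⊕ (μ ⊕ μ) → MvPowerSeries κ ℂ := Sum.elim MvPowerSeries.X (Sum.elim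
    (fun i => MvPolynomial.aeval φ (MvPolynomial.pderiv i q) - algebraMap ℂ _ (s0 i))
    (fun i => φ i - algebraMap ℂ _ (c i)))
  have hcc : MvPowerSeries.HasSubst cc := by
    refine MvPowerSeries.hasSubst_of_constantCoeff_zero fun i => ?_
    rcases i with w | i | i
    · exact MvPowerSeries.constantCoeff_X w
    · change MvPowerSeries.constantCoeff (MvPolynomial.aeval φ (MvPolynomial.pderiv i q) -
        algebraMap ℂ _ (s0 i)) = 0
      rw [map_sub, sub_eq_zero]
      have h1 : MvPowerSeries.constantCoeff (algebraMap ℂ (MvPowerSeries κ ℂ) (s0 i)) = s0 i := rfl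
      rw [h1]
      have h2 : ∀ q' : MvPolynomial μ ℂ, MvPowerSeries.constantCoeff (MvPolynomial.aeval φ q') =
          MvPolynomial.eval c q' := by
        intro q'
        induction q' using MvPolynomial.induction_on with
        | C a =>
          rw [MvPolynomial.aeval_C, MvPolynomial.eval_C]
          rfl
        | add p q hp hq => rw [map_add, map_add, map_add, hp, hq]
        | mul_X p k hp =>
          rw [map_mul, map_mul, map_mul, hp, MvPolynomial.aeval_X, MvPolynomial.eval_X]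
      exact h2 _
    · change MvPowerSeries.constantCoeff (φ i - algebraMap ℂ _ (c i)) = 0
      rw [map_sub]
      exact sub_self _
  set π := MvPowerSeries.substAlgHom (R := ℂ) hcc with hπ
  have hπR : ∀ g, π (R g) = g := fun g => subst_ren cc hcc (fun w => rfl) g
  have hπX : ∀ i, π (MvPowerSeries.X i) = cc i := fun i => MvPowerSeries.substAlgHom_X hcc i
  have hπE : ∀ i, π (E i) = φ i := by
    intro i
    rw [map_add, AlgHom.commutes, hπX]
    change algebraMap ℂ _ (c i) + (φ i - algebraMap ℂ _ (c i)) = φ i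
    ring
  have hπS : ∀ i, π (S i) = MvPolynomial.aeval φ (MvPolynomial.pderiv i q) := by
    intro i
    rw [map_add, AlgHom.commutes, hπX]
    change algebraMap ℂ _ (s0 i) + (MvPolynomial.aeval φ (MvPolynomial.pderiv i q) -
      algebraMap ℂ _ (s0 i)) = _
    ring
  have hπJ : J' ≤ J.comap π := by
    rw [hJ', Ideal.span_le]
    rintro _ ⟨i, rfl⟩
    change π (lg A i G) ∈ J
    rcases i with w | i | i
    · rw [hG3, map_sum]
      have h1 : ∑ i, π (S i * R (lgk A w (φ i))) = lgk A w H := by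
        rw [hlgH]
        refine Finset.sum_congr rfl fun i _ => ?_
        rw [map_mul, hπS, hπR]
      rw [h1]
      exact Ideal.subset_span ⟨w, rfl⟩
    · rw [hG1, map_sub, hπR, hπE, sub_self]
      exact zero_mem _
    · rw [hG2, map_sub, hπS]
      have h1 : π (MvPolynomial.aeval E (MvPolynomial.pderiv i q)) =
          MvPolynomial.aeval φ (MvPolynomial.pderiv i q) := by
        rw [MvPolynomial.comp_aeval_apply]
        have h2 : (fun i => π (E i)) = φ := funext hπE
        rw [h2]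
      rw [h1, sub_self]
      exact zero_mem _
  -- the conclusion
  have hRPX : RP (PowerSeries.X) = PowerSeries.X := renP_X
  refine crit_log (τ := μ ⊕ μ) f b hb p e (fun i => RP (ξ i)) k a l hl A K0 K1 hK0 hK1
    (RP U0) (RP U2) (fun j => RP (u j)) ?_ (fun j => ?_) ?_ Y (fun w j => ?_) j0 ?_ G ?_ α hα hε
    hiso' ?_
  · have h1 : (Matrix.of fun t i => thd (fun w : κ => MvPowerSeries.pderiv ℂ
        (Sum.inl w : κ ⊕ (μ ⊕ μ))) (e t) (RP (ξ i))) =
        (Matrix.of fun t i => thd (fun w : κ => MvPowerSeries.pderiv ℂ w) (e t) (ξ i)).map RP := by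
      ext t i : 1
      rw [Matrix.map_apply, Matrix.of_apply, Matrix.of_apply, hRP, thd_renP]
    have h2 : ((Matrix.of fun t i => thd (fun w : κ => MvPowerSeries.pderiv ℂ w)
        (e t) (ξ i)).map RP).det = RP (Matrix.of fun t i => thd
          (fun w : κ => MvPowerSeries.pderiv ℂ w) (e t) (ξ i)).det :=
      (AlgHom.map_det RP _).symm
    rw [h1, h2, hJ, map_mul, map_pow, map_mul, hRPX, hRP, renP_C, ren_mnk]
  · rw [← MvPolynomial.comp_aeval_apply ξ RP, hdiv, map_mul, map_pow, map_mul, hRPX, hRP,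
      renP_C, ren_mnk]
  · rw [← MvPolynomial.comp_aeval_apply ξ RP, hp, map_mul, map_pow, map_mul, hRPX, hRP,
      renP_C, ren_mnk]
  · simp only [Y]
    rw [map_add, map_sum]
    have h1 : ∀ i, MvPowerSeries.pderiv ℂ (Sum.inl w) (if jm i = j then S i else 0) = 0 := by
      intro i
      split_ifs
      · exact hdS _ _ (by simp)
      · exact map_zero _
    rw [Finset.sum_eq_zero fun i _ => h1 i, zero_add]
    split_ifs
    · exact hdY0 w
    · exact map_zero _
  · rw [hRP, cc_renP]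
    exact hj0.map _
  · simp only [hRP, cc_renP]
    simp only [Y, add_mul, Finset.sum_add_distrib, Finset.sum_mul]
    have h1 : ∑ j, (if j = j0 then Y0 else 0) * ren κ (μ ⊕ μ) (PowerSeries.constantCoeff (u j)) =
        Y0 * ren κ (μ ⊕ μ) (PowerSeries.constantCoeff (u j0)) := by
      rw [Finset.sum_eq_single j0]
      · rw [if_pos rfl]
      · intro j _ hj
        rw [if_neg hj, zero_mul]
      · intro h; exact absurd (Finset.mem_univ _) h
    have h2 : ∑ j, ∑ i, (if jm i = j then S i else 0) *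
        ren κ (μ ⊕ μ) (PowerSeries.constantCoeff (u j)) =
        ∑ i, S i * R (φ i) * ren κ (μ ⊕ μ) (PowerSeries.constantCoeff (u j0)) := by
      rw [Finset.sum_comm]
      refine Finset.sum_congr rfl fun i _ => ?_
      rw [Finset.sum_eq_single (jm i)]
      · rw [if_pos rfl, ← hφ i, map_mul, hR]
        ring
      · intro j _ hj
        rw [if_neg (Ne.symm hj), zero_mul]
      · intro h; exact absurd (Finset.mem_univ _) h
    rw [h1, h2]
    simp only [G, add_mul, Finset.sum_mul]
  · rw [hRP, cc_renP, cc_renP, ← map_mul]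
    intro h
    apply hω
    have h1 := hπJ h
    rw [Ideal.mem_comap] at h1
    rwa [← hR, hπR] at h1

end Pool.Agent.L5helper26.CD
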