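import Pool.Agent.L5helper26.CD.Chart

set_option autoImplicit false
set_option linter.unusedSectionVars false

/-! # The exponential twist -/

namespace Pool.Agent.L5helper26.CD

open MvPolynomial Pool.Agent.H628R4.TP Pool.Agent.W574.HS

section dG

variable {B κ : Type*} [CommRing B] [Algebra ℂ B]

/-- the derivations which kill `T - G` -/
noncomputable def dG (D : κ → Derivation ℂ B B) (G : B) (w : κ) :
    Derivation ℂ (PowerSeries B) (PowerSeries B) :=
  pd (D w) + PowerSeries.C (D w G) • dz B

theorem dG_apply (D : κ → Derivation ℂ B B) (G : B) (w : κ) (V : PowerSeries B) :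
    dG D G w V = pd (D w) V + PowerSeries.C (D w G) * dz B V := rfl

theorem coeff_dG (D : κ → Derivation ℂ B B) (G : B) (w : κ) (V : PowerSeries B) (i : ℕ) :
    PowerSeries.coeff i (dG D G w V) = D w (PowerSeries.coeff i V) +
      ((i : ℂ) + 1) • (D w G * PowerSeries.coeff (i + 1) V) := by
  rw [dG_apply, map_add, coeff_pd, PowerSeries.coeff_C_mul, coeff_dz, mul_smul_comm]

theorem dG_comm (D : κ → Derivation ℂ B B) (hD : ∀ w w' a, D w (D w' a) = D w' (D w a)) (G : B)
    (w w' : κ) (V : PowerSeries B) : dG D G w (dG D G w' V) = dG D G w' (dG D G w V) := by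
  ext i
  simp only [coeff_dG, map_add, Derivation.map_smul, Derivation.leibniz, smul_eq_mul, hD w w']
  simp only [Algebra.smul_def]
  ring

theorem dG_C (D : κ → Derivation ℂ B B) (G : B) (w : κ) (a : B) :
    dG D G w (PowerSeries.C a) = PowerSeries.C (D w a) := by
  rw [dG_apply, pd_C, dz_C, mul_zero, add_zero]

theorem dG_X (D : κ → Derivation ℂ B B) (G : B) (w : κ) :
    dG D G w (PowerSeries.X : PowerSeries B) = PowerSeries.C (D w G) := by
  rw [dG_apply, pd_X, dz_X, mul_one, zero_add]

/-- the inclusion of the power series with constant coefficients -/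
noncomputable def inc (B : Type*) [CommRing B] [Algebra ℂ B] :
    PowerSeries B →ₐ[ℂ] PowerSeries (PowerSeries B) :=
  { PowerSeries.map (PowerSeries.C : B →+* PowerSeries B) with
    commutes' := fun r => by
      change PowerSeries.map _ (algebraMap ℂ (PowerSeries B) r) = _
      rw [PowerSeries.algebraMap_apply, PowerSeries.algebraMap_apply, PowerSeries.map_C,
        PowerSeries.algebraMap_apply] }

theorem coeff_inc (g : PowerSeries B) (n : ℕ) :
    PowerSeries.coeff n (inc B g) = PowerSeries.C (PowerSeries.coeff n g) :=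
  PowerSeries.coeff_map _ _ _

theorem inc_X : inc B (PowerSeries.X : PowerSeries B) = PowerSeries.X := PowerSeries.map_X _

theorem thd_inc (D : κ → Derivation ℂ B B) (G : B) (o : Option κ) (g : PowerSeries B) :
    thd (dG D G) o (inc B g) = inc B (thd D o g) := by
  ext n : 1
  cases o with
  | none =>
    change PowerSeries.coeff n (dz (PowerSeries B) (inc B g)) =
      PowerSeries.coeff n (inc B (dz B g))
    rw [coeff_dz, coeff_inc, coeff_inc, coeff_dz]
    ext m
    rw [coeff_smul_ps, PowerSeries.coeff_C, PowerSeries.coeff_C]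
    split_ifs
    · rfl
    · exact smul_zero _
  | some w =>
    change PowerSeries.coeff n (pd (dG D G w) (inc B g)) =
      PowerSeries.coeff n (inc B (pd (D w) g))
    rw [coeff_pd, coeff_inc, coeff_inc, coeff_pd, dG_C]

end dG

variable {ι σ : Type} {κ B : Type*} [Fintype ι] [DecidableEq ι] [Fintype σ] [DecidableEq σ]
  [Fintype κ] [CommRing B] [IsDomain B] [Algebra ℂ B]

/-- **The identity on a divisor with the exponential twist.** -/
theorem exp_key (f : ι → MvPolynomial σ ℂ) (b : Polynomial ℂ)
    (hb : IsBFunction (univ f) ((Polynomial.X + 1) * b)) (p : MvPolynomial σ ℂ)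
    (e : σ ≃ Option κ) (D : κ → Derivation ℂ B B)
    (hD : ∀ w w' a, D w (D w' a) = D w' (D w a)) (ξ : σ → PowerSeries B) (k a l : ℕ) (hl : l < a)
    (U0 U2 : PowerSeries B) (u : ι → PowerSeries B)
    (hJ : (Matrix.of fun t i => thd D (e t) (ξ i)).det = PowerSeries.X ^ k * U0)
    (hdiv : ∀ j, aeval ξ (f j) = PowerSeries.X ^ a * u j)
    (hp : aeval ξ p = PowerSeries.X ^ l * U2)
    (Y : ι → B) (hY : ∀ w j, D w (Y j) = 0) (j0 : ι) (G : B)
    (hG : G * PowerSeries.constantCoeff (u j0) = ∑ j, Y j * PowerSeries.constantCoeff (u j))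
    (h0 : PowerSeries.constantCoeff (u j0) ≠ 0) (α : ℂ)
    (hα : (a : ℂ) * α + (k + l + 1) = 0) : ∃ (M : ℕ) (v : κ → ℕ → B),
      (∀ i : ℕ, (if i = M then algebraMap ℂ B (b.eval α) *
        (PowerSeries.constantCoeff U0 * PowerSeries.constantCoeff U2) *
          PowerSeries.constantCoeff (u j0) ^ (M + 1) else 0) =
        ∑ w, (PowerSeries.constantCoeff (u j0) * D w (v w i) +
          algebraMap ℂ B (α - M) * v w i * D w (PowerSeries.constantCoeff (u j0)) +
          algebraMap ℂ B ((i : ℂ) + 1 + α - M) * PowerSeries.constantCoeff (u j0) *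
            D w G * v w (i + 1))) ∧
      ∑ w, algebraMap ℂ B (α - M) * D w G * v w 0 = 0 := by
  classical
  set φ : B := PowerSeries.constantCoeff (u j0) with hφ
  have hJ' : (Matrix.of fun t i => thd (dG D G) (e t) (inc B (ξ i))).det =
      PowerSeries.X ^ k * inc B U0 := by
    have h1 : (Matrix.of fun t i => thd (dG D G) (e t) (inc B (ξ i))) =
        (Matrix.of fun t i => thd D (e t) (ξ i)).map (inc B) := by
      ext t i : 1
      rw [Matrix.map_apply, Matrix.of_apply, Matrix.of_apply, thd_inc]
    have h2 : ((Matrix.of fun t i => thd D (e t) (ξ i)).map (inc B)).det =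
        inc B (Matrix.of fun t i => thd D (e t) (ξ i)).det :=
      ((inc B : PowerSeries B →+* PowerSeries (PowerSeries B)).map_det _).symm
    rw [h1, h2, hJ, map_mul, map_pow, inc_X]
  have hae : ∀ q : MvPolynomial σ ℂ, aeval (fun i => inc B (ξ i)) q = inc B (aeval ξ q) := by
    intro q
    exact (MvPolynomial.comp_aeval_apply ξ (inc B) q).symm
  have hc : ∀ g : PowerSeries B, PowerSeries.constantCoeff (inc B g) =
      PowerSeries.C (PowerSeries.constantCoeff g) := by
    intro g
    rw [← PowerSeries.coeff_zero_eq_constantCoeff_apply, coeff_inc,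
      PowerSeries.coeff_zero_eq_constantCoeff_apply]
  obtain ⟨M, V, hV⟩ := chart_key f b hb p e (dG D G) (dG_comm D hD G) (fun i => inc B (ξ i))
    k a l hl (inc B U0) (inc B U2) (fun j => inc B (u j)) hJ'
    (fun j => by rw [hae, hdiv, map_mul, map_pow, inc_X])
    (by rw [hae, hp, map_mul, map_pow, inc_X])
    (fun j => PowerSeries.C (Y j) + if j = j0 then PowerSeries.X - PowerSeries.C G else 0)
    (fun w j => by
      beta_reduce
      rw [map_add, dG_C, hY, map_zero, zero_add]
      split_ifs
      · rw [map_sub, dG_C, dG_X, sub_self]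
      · exact map_zero _)
    (PowerSeries.X * PowerSeries.C φ) (by
      simp only [hc, add_mul, Finset.sum_add_distrib]
      have e1 : ∑ j, (if j = j0 then PowerSeries.X - PowerSeries.C G else 0) *
          PowerSeries.C (PowerSeries.constantCoeff (u j)) =
          (PowerSeries.X - PowerSeries.C G) * PowerSeries.C φ := by
        rw [Finset.sum_eq_single j0]
        · rw [if_pos rfl]
        · intro j _ hj
          rw [if_neg hj, zero_mul]
        · intro h; exact absurd (Finset.mem_univ _) h
      have e2 : ∑ j, PowerSeries.C (Y j) * PowerSeries.C (PowerSeries.constantCoeff (u j)) =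
          PowerSeries.C G * PowerSeries.C φ := by
        rw [← map_mul, hG, map_sum]
        refine Finset.sum_congr rfl fun j _ => ?_
        rw [map_mul]
      rw [e1, e2]
      ring)
    (mul_ne_zero PowerSeries.X_ne_zero (by
      intro h
      apply h0
      have := congrArg PowerSeries.constantCoeff h
      rwa [PowerSeries.constantCoeff_C, map_zero] at this)) α hα
  have hdX : ∀ w, dG D G w (PowerSeries.X * PowerSeries.C φ) =
      PowerSeries.X * PowerSeries.C (D w φ) + PowerSeries.C (φ * D w G) := by
    intro w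
    rw [Derivation.leibniz, dG_C, dG_X, smul_eq_mul, smul_eq_mul, ← map_mul]
  have hal : ∀ c : ℂ, algebraMap ℂ (PowerSeries B) c = PowerSeries.C (algebraMap ℂ B c) :=
    fun _ => PowerSeries.algebraMap_apply
  refine ⟨M, fun w i => PowerSeries.coeff i (V w), fun i => ?_, ?_⟩
  · have h1 := congrArg (PowerSeries.coeff (i + 1)) hV
    rw [map_sum] at h1
    have eL : PowerSeries.coeff (i + 1) (algebraMap ℂ (PowerSeries B) (b.eval α) *
        (PowerSeries.constantCoeff (inc B U0) * PowerSeries.constantCoeff (inc B U2)) *
        (PowerSeries.X * PowerSeries.C φ) ^ (M + 1)) =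
        if i = M then algebraMap ℂ B (b.eval α) *
          (PowerSeries.constantCoeff U0 * PowerSeries.constantCoeff U2) * φ ^ (M + 1) else 0 := by
      rw [hc, hc, hal, mul_pow]
      have e1 : PowerSeries.C (algebraMap ℂ B (b.eval α)) *
          (PowerSeries.C (PowerSeries.constantCoeff U0) *
            PowerSeries.C (PowerSeries.constantCoeff U2)) *
          (PowerSeries.X ^ (M + 1) * PowerSeries.C φ ^ (M + 1)) =
          PowerSeries.C (algebraMap ℂ B (b.eval α) *
          (PowerSeries.constantCoeff U0 * PowerSeries.constantCoeff U2) * φ ^ (M + 1)) *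
            PowerSeries.X ^ (M + 1) := by
        simp only [map_mul, map_pow]
        ring
      rw [e1, PowerSeries.coeff_C_mul, PowerSeries.coeff_X_pow]
      by_cases h : i = M
      · rw [if_pos h, if_pos (by omega), mul_one]
      · rw [if_neg h, if_neg (by omega), mul_zero]
    rw [eL] at h1
    rw [h1]
    refine Finset.sum_congr rfl fun w _ => ?_
    rw [hdX, hal, map_add]
    have e1 : PowerSeries.X * PowerSeries.C φ * dG D G w (V w) =
        PowerSeries.X * (PowerSeries.C φ * dG D G w (V w)) := by ring
    have e2 : PowerSeries.C (algebraMap ℂ B (α - M)) * V w *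
        (PowerSeries.X * PowerSeries.C (D w φ) + PowerSeries.C (φ * D w G)) =
        PowerSeries.X * (PowerSeries.C (algebraMap ℂ B (α - M) * D w φ) * V w) +
        PowerSeries.C (algebraMap ℂ B (α - M) * (φ * D w G)) * V w := by
      simp only [map_mul]
      ring
    rw [e1, e2, map_add, PowerSeries.coeff_succ_X_mul, PowerSeries.coeff_succ_X_mul,
      PowerSeries.coeff_C_mul, PowerSeries.coeff_C_mul, PowerSeries.coeff_C_mul, coeff_dG,
      Algebra.smul_def]
    simp only [map_add, map_sub]
    ring
  · have h1 := congrArg (PowerSeries.coeff 0) hV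
    rw [map_sum] at h1
    have eL : PowerSeries.coeff 0 (algebraMap ℂ (PowerSeries B) (b.eval α) *
        (PowerSeries.constantCoeff (inc B U0) * PowerSeries.constantCoeff (inc B U2)) *
        (PowerSeries.X * PowerSeries.C φ) ^ (M + 1)) = 0 := by
      have e0 : PowerSeries.constantCoeff (PowerSeries.X * PowerSeries.C φ) = 0 := by
        rw [map_mul, PowerSeries.constantCoeff_X, zero_mul]
      rw [PowerSeries.coeff_zero_eq_constantCoeff_apply, map_mul, map_pow, e0,
        zero_pow (Nat.succ_ne_zero _), mul_zero]
    rw [eL] at h1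
    have h2 : ∀ w, PowerSeries.coeff 0 (PowerSeries.X * PowerSeries.C φ * dG D G w (V w) +
        algebraMap ℂ (PowerSeries B) (α - M) * V w * dG D G w (PowerSeries.X * PowerSeries.C φ)) =
        φ * (algebraMap ℂ B (α - M) * D w G * PowerSeries.coeff 0 (V w)) := by
      intro w
      rw [hdX, hal, PowerSeries.coeff_zero_eq_constantCoeff_apply,
        PowerSeries.coeff_zero_eq_constantCoeff_apply]
      simp only [map_add, map_mul, PowerSeries.constantCoeff_X, PowerSeries.constantCoeff_C,
        zero_mul, zero_add]
      ring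
    rw [Finset.sum_congr rfl fun w _ => h2 w, ← Finset.mul_sum] at h1
    exact (mul_eq_zero.1 h1.symm).resolve_left h0

end Pool.Agent.L5helper26.CD
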