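import Pool.Agent.L5helper26.CD.Crit
import Pool.Agent.W366.SI.I1

set_option autoImplicit false
set_option linter.unusedSectionVars false

/-! # The main theorem for ideals -/

namespace Pool.Agent.L5helper26.CD

open Pool.Agent.H628R4.TP Pool.Agent.W574.HS Pool.Agent.W574.SM Pool.Agent.L5helper26.CP

variable {ι σ κ : Type} [Fintype ι] [Fintype σ] [DecidableEq σ] [Fintype κ]

theorem final (f : ι → MvPolynomial σ ℂ) (b : Polynomial ℂ) (hb : IsFunctionalEq f b)
    (p : MvPolynomial σ ℂ) (e : σ ≃ Option κ) (ξ : σ → PowerSeries (MvPowerSeries κ ℂ))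
    (k a l : ℕ) (hl : l < a) (A K0 K1 : κ → ℕ) (hK0 : ∀ w, A w = 0 → K0 w = 0)
    (hK1 : ∀ w, A w = 0 → K1 w = 0) (U0 U2 : PowerSeries (MvPowerSeries κ ℂ))
    (hJ : (Matrix.of fun t i => thd (fun w : κ => MvPowerSeries.pderiv ℂ w)
      (e t) (ξ i)).det = PowerSeries.X ^ k * (PowerSeries.C (mnk K0) * U0))
    (hdiv : ∀ j, PowerSeries.X ^ a * PowerSeries.C (mnk A) ∣ MvPolynomial.aeval ξ (f j))
    (hp : MvPolynomial.aeval ξ p = PowerSeries.X ^ l * (PowerSeries.C (mnk K1) * U2))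
    (F0 : MvPolynomial σ ℂ) (hF0 : F0 ∈ Ideal.span (Set.range f))
    (u0 : PowerSeries (MvPowerSeries κ ℂ))
    (hu0 : MvPolynomial.aeval ξ F0 = PowerSeries.X ^ a * PowerSeries.C (mnk A) * u0)
    (hu0' : IsUnit (PowerSeries.constantCoeff u0))
    (S : Set (MvPowerSeries κ ℂ)) (hS : ∀ φ ∈ S, ∃ F ∈ Ideal.span (Set.range f),
      ∃ v : PowerSeries (MvPowerSeries κ ℂ),
        MvPolynomial.aeval ξ F = PowerSeries.X ^ a * PowerSeries.C (mnk A) * v ∧
        φ * PowerSeries.constantCoeff u0 = PowerSeries.constantCoeff v)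
    (H : MvPowerSeries κ ℂ) (hH : H ∈ Algebra.adjoin ℂ S)
    (α : ℂ) (hα : (a : ℂ) * α + (k + l + 1) = 0)
    (hε : ∀ w, A w ≠ 0 → ∀ n : ℕ, 0 < n → (K0 w : ℂ) + K1 w + 1 + α * A w ≠ n)
    (hiso : ∀ w, MvPowerSeries.X w ∈ (Ideal.span (Set.range fun w => lgk A w H)).radical)
    (hω : PowerSeries.constantCoeff U0 * PowerSeries.constantCoeff U2 ∉
      Ideal.span (Set.range fun w => lgk A w H)) : b.eval α = 0 := by
  classical
  -- finitely many quotients
  rw [Algebra.adjoin_eq_range] at hH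
  obtain ⟨q0, hq0⟩ := hH
  obtain ⟨T, q, hq⟩ := MvPolynomial.exists_finset_rename q0
  have hH' : MvPolynomial.aeval (fun i : {x // x ∈ T} => ((i : S) : MvPowerSeries κ ℂ)) q = H := by
    rw [← hq0, hq]
    change _ = MvPolynomial.aeval Subtype.val _
    rw [MvPolynomial.aeval_rename]
    rfl
  choose F hF v hv hφ using fun i : {x // x ∈ T} => hS ((i : S) : MvPowerSeries κ ℂ) (i : S).2
  -- the generators
  let μ := Option {x // x ∈ T}
  let g : μ → MvPolynomial σ ℂ := fun o => o.elim F0 F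
  have hg : ∀ m, g m ∈ Ideal.span (Set.range f) := by
    intro m
    cases m with
    | none => exact hF0
    | some i => exact hF i
  have hB := gens f g hg _ (Pool.Agent.W366.SI.taskI1' f b hb)
  choose uf huf using hdiv
  let u : ι ⊕ μ → PowerSeries (MvPowerSeries κ ℂ) := Sum.elim uf (fun o => o.elim u0 v)
  refine crit_fun (Sum.elim f g) b hB p e ξ k a l hl A K0 K1 hK0 hK1 U0 U2 u hJ (fun j => ?_) hp
    (Sum.inr none) hu0' (fun i : {x // x ∈ T} => ((i : S) : MvPowerSeries κ ℂ))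
    (fun i => Sum.inr (some i)) (fun i => hφ i) q H hH' α hα hε hiso hω
  rcases j with j | (_ | i)
  · change MvPolynomial.aeval ξ (f j) = PowerSeries.X ^ a * (PowerSeries.C (mnk A) * uf j)
    rw [huf, mul_assoc]
  · change MvPolynomial.aeval ξ F0 = PowerSeries.X ^ a * (PowerSeries.C (mnk A) * u0)
    rw [hu0, mul_assoc]
  · change MvPolynomial.aeval ξ (F i) = PowerSeries.X ^ a * (PowerSeries.C (mnk A) * v i)
    rw [hv, mul_assoc]

end Pool.Agent.L5helper26.CD
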