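import Pool.Agent.L5helper26.CD.Main

set_option autoImplicit false
set_option linter.unusedSectionVars false

/-! # Functions of the quotients -/

namespace Pool.Agent.L5helper26.CD

open Pool.Agent.H628R4.TP Pool.Agent.W574.HS Pool.Agent.L5helper26.CP

section ren

variable {κ τ : Type} [Fintype κ] [DecidableEq κ] [Fintype τ] [DecidableEq τ]

/-- the inclusion of the power series in the first variables -/
noncomputable def ren (κ τ : Type) [Fintype κ] :
    MvPowerSeries κ ℂ →ₐ[ℂ] MvPowerSeries (κ ⊕ τ) ℂ :=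
  MvPowerSeries.rename (Function.Embedding.inl : κ ↪ κ ⊕ τ)

theorem ren_X (w : κ) : ren κ τ (MvPowerSeries.X w) = MvPowerSeries.X (Sum.inl w) :=
  MvPowerSeries.rename_X _ w

theorem coeff_ren (a : MvPowerSeries κ ℂ) (n : κ →₀ ℕ) :
    MvPowerSeries.coeff (Finsupp.embDomain Function.Embedding.inl n) (ren κ τ a) =
      MvPowerSeries.coeff n a :=
  MvPowerSeries.coeff_embDomain_rename _ _ _

theorem coeff_ren_zero (a : MvPowerSeries κ ℂ) (n : κ ⊕ τ →₀ ℕ) (t : τ) (h : n (Sum.inr t) ≠ 0) :
    MvPowerSeries.coeff n (ren κ τ a) = 0 := by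
  refine MvPowerSeries.coeff_rename_eq_zero _ _ ?_
  rintro ⟨m, rfl⟩
  apply h
  rw [Finsupp.mapDomain_of_notMem_range]
  rintro ⟨w, hw⟩
  exact Sum.inl_ne_inr hw

theorem pd_ren (w : κ) (a : MvPowerSeries κ ℂ) :
    MvPowerSeries.pderiv ℂ (Sum.inl w) (ren κ τ a) = ren κ τ (MvPowerSeries.pderiv ℂ w a) := by
  ext n
  rw [MvPowerSeries.coeff_pderiv]
  by_cases h : ∃ t : τ, n (Sum.inr t) ≠ 0
  · obtain ⟨t, ht⟩ := h
    rw [coeff_ren_zero _ n t ht, coeff_ren_zero _ _ t, zero_mul]
    rw [Finsupp.add_apply]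
    omega
  · push Not at h
    obtain ⟨m, rfl⟩ : ∃ m : κ →₀ ℕ, n = Finsupp.embDomain Function.Embedding.inl m := by
      refine ⟨n.comapDomain Sum.inl Sum.inl_injective.injOn, ?_⟩
      ext i
      rcases i with w | t
      · change n (Sum.inl w) = (Finsupp.embDomain (Function.Embedding.inl : κ ↪ κ ⊕ τ)
          (n.comapDomain Sum.inl Sum.inl_injective.injOn)) ((Function.Embedding.inl : κ ↪ κ ⊕ τ) w)
        rw [Finsupp.embDomain_apply_self]
        rfl
      · rw [h t, Finsupp.embDomain_of_notMem_range]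
        rintro ⟨w, hw⟩
        exact Sum.inl_ne_inr hw
    have h1 : Finsupp.embDomain Function.Embedding.inl m + Finsupp.single (Sum.inl w) 1 =
        Finsupp.embDomain (Function.Embedding.inl : κ ↪ κ ⊕ τ) (m + Finsupp.single w 1) := by
      rw [Finsupp.embDomain_add, Finsupp.embDomain_single]
      rfl
    rw [h1, coeff_ren, coeff_ren, MvPowerSeries.coeff_pderiv]
    congr 2
    have h2 := Finsupp.embDomain_apply_self (Function.Embedding.inl : κ ↪ κ ⊕ τ) m w
    rw [← h2]
    rfl

theorem pd_ren_inr (t : τ) (a : MvPowerSeries κ ℂ) :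
    MvPowerSeries.pderiv ℂ (Sum.inr t) (ren κ τ a) = 0 := by
  ext n
  rw [MvPowerSeries.coeff_pderiv, coeff_ren_zero _ _ t, zero_mul, map_zero]
  rw [Finsupp.add_apply, Finsupp.single_eq_same]
  omega

/-- the retraction given by a substitution -/
theorem subst_ren (c : κ ⊕ τ → MvPowerSeries κ ℂ) (hc : MvPowerSeries.HasSubst c)
    (hX : ∀ w, c (Sum.inl w) = MvPowerSeries.X w) (a : MvPowerSeries κ ℂ) :
    MvPowerSeries.substAlgHom (R := ℂ) hc (ren κ τ a) = a := by
  rw [MvPowerSeries.coe_substAlgHom, ren, MvPowerSeries.rename_eq_subst,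
    MvPowerSeries.subst_comp_subst_apply (MvPowerSeries.HasSubst.X_comp _) hc]
  have h : (fun s => MvPowerSeries.subst c ((MvPowerSeries.X ∘
      (Function.Embedding.inl : κ ↪ κ ⊕ τ)) s : MvPowerSeries (κ ⊕ τ) ℂ)) =
      (MvPowerSeries.X : κ → MvPowerSeries κ ℂ) := by
    funext s
    rw [Function.comp_apply, MvPowerSeries.subst_X hc]
    exact hX s
  rw [h, MvPowerSeries.subst_self]
  rfl

end ren

section algebra

variable {μ R : Type*} [Fintype μ] [CommRing R] [Algebra ℂ R]

theorem der_aeval (D : Derivation ℂ R R) (x : μ → R) (q : MvPolynomial μ ℂ) :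
    D (MvPolynomial.aeval x q) =
      ∑ i, MvPolynomial.aeval x (MvPolynomial.pderiv i q) * D (x i) := by
  classical
  induction q using MvPolynomial.induction_on with
  | C a =>
    rw [MvPolynomial.aeval_C, Derivation.map_algebraMap]
    simp
  | add p q hp hq =>
    rw [map_add, map_add, hp, hq, ← Finset.sum_add_distrib]
    refine Finset.sum_congr rfl fun i _ => ?_
    rw [map_add, map_add]
    ring
  | mul_X p k hp =>
    rw [map_mul, Derivation.leibniz, smul_eq_mul, smul_eq_mul, hp, MvPolynomial.aeval_X,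
      Finset.mul_sum]
    have h1 : MvPolynomial.aeval x p * D (x k) = ∑ i, MvPolynomial.aeval x
        (p * MvPolynomial.pderiv i (MvPolynomial.X k)) * D (x i) := by
      rw [Finset.sum_eq_single k]
      · rw [MvPolynomial.pderiv_X_self, mul_one]
      · intro i _ hi
        rw [MvPolynomial.pderiv_X_of_ne hi.symm, mul_zero, map_zero, zero_mul]
      · intro h; exact absurd (Finset.mem_univ k) h
    rw [h1, ← Finset.sum_add_distrib]
    refine Finset.sum_congr rfl fun i _ => ?_
    rw [Derivation.leibniz, smul_eq_mul, smul_eq_mul, map_add, map_mul, map_mul,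
      MvPolynomial.aeval_X]
    ring

theorem aeval_sub_mem (J : Ideal R) (x y : μ → R) (h : ∀ i, x i - y i ∈ J)
    (q : MvPolynomial μ ℂ) : MvPolynomial.aeval x q - MvPolynomial.aeval y q ∈ J := by
  induction q using MvPolynomial.induction_on with
  | C a =>
    rw [MvPolynomial.aeval_C, MvPolynomial.aeval_C, sub_self]
    exact zero_mem _
  | add p q hp hq =>
    rw [map_add, map_add, add_sub_add_comm]
    exact add_mem hp hq
  | mul_X p k hp =>
    rw [map_mul, map_mul, MvPolynomial.aeval_X, MvPolynomial.aeval_X]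
    have h1 : MvPolynomial.aeval x p * x k - MvPolynomial.aeval y p * y k =
        (MvPolynomial.aeval x p - MvPolynomial.aeval y p) * x k +
        MvPolynomial.aeval y p * (x k - y k) := by ring
    rw [h1]
    exact add_mem (Ideal.mul_mem_right _ _ hp) (Ideal.mul_mem_left _ _ (h k))

end algebra

end Pool.Agent.L5helper26.CD
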