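import Pool.Agent.N475.CU.B1
import Pool.Agent.W574.HS.Must

set_option autoImplicit false
set_option linter.unusedSectionVars false

/-! # Redundant generators do not change the functional equations -/

namespace Pool.Agent.L5helper26.CD

open MvPolynomial Pool.Agent.H628R4.TP Pool.Agent.W574.HS

theorem pderiv_rename' {τ τ' : Type} (e : τ → τ') (he : Function.Injective e) (i : τ)
    (p : MvPolynomial τ ℂ) : pderiv (e i) (rename e p) = rename e (pderiv i p) := by
  classical
  induction p using MvPolynomial.induction_on with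
  | C a => rw [rename_C, pderiv_C, pderiv_C, map_zero]
  | add p q hp hq => rw [map_add, map_add, hp, hq, map_add, map_add]
  | mul_X p k hp =>
    rw [map_mul, Derivation.leibniz, hp, rename_X, Derivation.leibniz, smul_eq_mul, smul_eq_mul,
      smul_eq_mul, smul_eq_mul, map_add, map_mul, map_mul, rename_X]
    congr 2
    by_cases h : k = i
    · rw [h, pderiv_X_self, pderiv_X_self, map_one]
    · rw [pderiv_X_of_ne h, pderiv_X_of_ne (fun h' => h (he h')), map_zero]

theorem weyl_rename {τ τ' : Type} (e : τ → τ') (he : Function.Injective e)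
    (Q : Module.End ℂ (MvPolynomial τ ℂ)) (hQ : Q ∈ weylS τ) :
    ∃ R : weylS τ', ∀ p, (R : Module.End ℂ (MvPolynomial τ' ℂ)) (rename e p) =
      rename e (Q p) := by
  induction hQ using Algebra.adjoin_induction with
  | mem Q h =>
    rcases h with ⟨i, rfl⟩ | ⟨i, rfl⟩
    · refine ⟨⟨LinearMap.mulLeft ℂ (X (e i)), Algebra.subset_adjoin (Or.inl ⟨e i, rfl⟩)⟩,
        fun p => ?_⟩
      change X (e i) * rename e p = rename e (X i * p)
      rw [map_mul, rename_X]
    · refine ⟨⟨_, Algebra.subset_adjoin (Or.inr ⟨e i, rfl⟩)⟩, fun p => ?_⟩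
      exact pderiv_rename' e he i p
  | algebraMap r =>
    refine ⟨algebraMap ℂ _ r, fun p => ?_⟩
    change r • rename e p = rename e (r • p)
    rw [map_smul]
  | add Q Q' _ _ h h' =>
    obtain ⟨R, hR⟩ := h
    obtain ⟨R', hR'⟩ := h'
    refine ⟨R + R', fun p => ?_⟩
    change (R : Module.End ℂ (MvPolynomial τ' ℂ)) (rename e p) +
      (R' : Module.End ℂ (MvPolynomial τ' ℂ)) (rename e p) = _
    rw [hR, hR', LinearMap.add_apply, map_add]
  | mul Q Q' _ _ h h' =>
    obtain ⟨R, hR⟩ := h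
    obtain ⟨R', hR'⟩ := h'
    refine ⟨R * R', fun p => ?_⟩
    change (R : Module.End ℂ (MvPolynomial τ' ℂ))
      ((R' : Module.End ℂ (MvPolynomial τ' ℂ)) (rename e p)) = _
    rw [hR', hR]
    rfl

theorem isB_rename' {τ τ' : Type} (e : τ → τ') (he : Function.Injective e)
    (g : MvPolynomial τ ℂ) (b : Polynomial ℂ) (hb : IsBFunction g b) :
    IsBFunction (rename e g) b := by
  classical
  obtain ⟨P, hP⟩ := hb
  choose R hR using fun Q : weylS τ => weyl_rename e he Q.1 Q.2
  let R' : weylS τ → weylS τ' := fun Q => if Q = 0 then 0 else R Q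
  have hR' : ∀ Q p, (R' Q : Module.End ℂ (MvPolynomial τ' ℂ)) (rename e p) =
      rename e ((Q : Module.End ℂ (MvPolynomial τ ℂ)) p) := by
    intro Q p
    by_cases h : Q = 0
    · subst h
      simp only [R', if_true]
      change (0 : MvPolynomial τ' ℂ) = rename e 0
      rw [map_zero]
    · simp only [R', if_neg h]
      exact hR Q p
  refine ⟨P.mapRange R' (if_pos rfl), fun s => ?_⟩
  rw [Finsupp.sum_mapRange_index (by
    intro m
    change ((s : ℂ) ^ m) • (0 : MvPolynomial τ' ℂ) = 0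
    exact smul_zero _)]
  have h1 := congrArg (rename e) (hP s)
  rw [map_mul, map_pow, rename_C] at h1
  rw [h1, Finsupp.sum, Finsupp.sum, map_sum]
  refine Finset.sum_congr rfl fun m _ => ?_
  rw [map_smul, ← map_pow, hR']

variable {ι μ σ : Type} [Fintype ι] [Fintype μ] [Finite σ]

theorem gens (f : ι → MvPolynomial σ ℂ) (g : μ → MvPolynomial σ ℂ)
    (hg : ∀ m, g m ∈ Ideal.span (Set.range f)) (b : Polynomial ℂ)
    (hb : IsBFunction (univ f) b) : IsBFunction (univ (Sum.elim f g)) b := by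
  classical
  choose c hc using fun m => Ideal.mem_span_range_iff_exists_fun.1 (hg m)
  let e : ι ⊕ σ → (ι ⊕ μ) ⊕ σ := Sum.map Sum.inl id
  have he : Function.Injective e := Sum.map_injective.2 ⟨Sum.inl_injective, Function.injective_id⟩
  have h1 := isB_rename' e he (univ f) b hb
  let q : ι → MvPolynomial ((ι ⊕ μ) ⊕ σ) ℂ := fun j =>
    ∑ m, X (Sum.inl (Sum.inr m)) * rename Sum.inr (c m j)
  let v : (ι ⊕ μ) ⊕ σ → MvPolynomial ((ι ⊕ μ) ⊕ σ) ℂ := fun t => X t +
    (match t with
      | Sum.inl (Sum.inl j) => q j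
      | _ => 0)
  let v' : (ι ⊕ μ) ⊕ σ → MvPolynomial ((ι ⊕ μ) ⊕ σ) ℂ := fun t => X t -
    (match t with
      | Sum.inl (Sum.inl j) => q j
      | _ => 0)
  have hren : ∀ (w : (ι ⊕ μ) ⊕ σ → MvPolynomial ((ι ⊕ μ) ⊕ σ) ℂ)
      (hw : ∀ i, w (Sum.inr i) = X (Sum.inr i)) (p : MvPolynomial σ ℂ),
      aeval w (rename Sum.inr p) = rename Sum.inr p := by
    intro w hw p
    rw [aeval_rename]
    induction p using MvPolynomial.induction_on with
    | C a => rw [aeval_C, rename_C]; rfl
    | add p q hp hq => rw [map_add, map_add, hp, hq]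
    | mul_X p k hp => rw [map_mul, map_mul, hp, aeval_X, rename_X, Function.comp_apply, hw]
  have hq : ∀ (w : (ι ⊕ μ) ⊕ σ → MvPolynomial ((ι ⊕ μ) ⊕ σ) ℂ)
      (hw : ∀ i, w (Sum.inr i) = X (Sum.inr i))
      (hw' : ∀ m, w (Sum.inl (Sum.inr m)) = X (Sum.inl (Sum.inr m))) (j : ι),
      aeval w (q j) = q j := by
    intro w hw hw' j
    rw [map_sum]
    refine Finset.sum_congr rfl fun m _ => ?_
    rw [map_mul, hren w hw, aeval_X, hw']
  have hv1 : ∀ i, v (Sum.inr i) = X (Sum.inr i) := fun i => add_zero _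
  have hv2 : ∀ m, v (Sum.inl (Sum.inr m)) = X (Sum.inl (Sum.inr m)) := fun i => add_zero _
  have hv1' : ∀ i, v' (Sum.inr i) = X (Sum.inr i) := fun i => sub_zero _
  have hv2' : ∀ m, v' (Sum.inl (Sum.inr m)) = X (Sum.inl (Sum.inr m)) := fun i => sub_zero _
  have hv3 : ∀ j, v (Sum.inl (Sum.inl j)) = X (Sum.inl (Sum.inl j)) + q j := fun _ => rfl
  have hv3' : ∀ j, v' (Sum.inl (Sum.inl j)) = X (Sum.inl (Sum.inl j)) - q j := fun _ => rfl
  let Φ : MvPolynomial ((ι ⊕ μ) ⊕ σ) ℂ ≃ₐ[ℂ] MvPolynomial ((ι ⊕ μ) ⊕ σ) ℂ :=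
    AlgEquiv.ofAlgHom (aeval v) (aeval v')
      (by
        refine MvPolynomial.algHom_ext fun t => ?_
        rw [AlgHom.comp_apply, aeval_X, AlgHom.id_apply]
        rcases t with (j | m) | i
        · rw [hv3', map_sub, hq v hv1 hv2, aeval_X, hv3]
          ring
        · rw [hv2', aeval_X, hv2]
        · rw [hv1', aeval_X, hv1])
      (by
        refine MvPolynomial.algHom_ext fun t => ?_
        rw [AlgHom.comp_apply, aeval_X, AlgHom.id_apply]
        rcases t with (j | m) | i
        · rw [hv3, map_add, hq v' hv1' hv2', aeval_X, hv3']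
          ring
        · rw [hv2, aeval_X, hv2']
        · rw [hv1, aeval_X, hv1'])
  have h2 := Pool.Agent.N475.CU.b1 _ Φ (rename e (univ f)) b h1
  have h3 : Φ (rename e (univ f)) = univ (Sum.elim f g) := by
    change aeval v (rename e (univ f)) = _
    rw [univ, univ, Fintype.sum_sum_type, map_sum, map_sum]
    simp only [Sum.elim_inl, Sum.elim_inr, map_mul, rename_X, rename_rename]
    have e1 : ∀ j : ι, aeval v (X (e (Sum.inl j)) : MvPolynomial ((ι ⊕ μ) ⊕ σ) ℂ) =
        X (Sum.inl (Sum.inl j)) + q j := by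
      intro j
      rw [aeval_X]
      exact hv3 j
    have e2 : ∀ j : ι, aeval v (rename (e ∘ Sum.inr) (f j)) = rename Sum.inr (f j) := fun j =>
      hren v hv1 (f j)
    simp only [e1, e2, add_mul, Finset.sum_add_distrib]
    congr 1
    simp only [q, Finset.sum_mul]
    rw [Finset.sum_comm]
    refine Finset.sum_congr rfl fun m _ => ?_
    rw [← hc m, map_sum, Finset.mul_sum]
    refine Finset.sum_congr rfl fun j _ => ?_
    rw [map_mul, mul_assoc]
  rwa [h3] at h2

end Pool.Agent.L5helper26.CD
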