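import Pool.Agent.L5helper26.CP.Iso
import Pool.Agent.L5helper26.CP.Ps

set_option autoImplicit false
set_option linter.unusedSectionVars false

/-! # The syzygies of a system of parameters of the ring of power series -/

namespace Pool.Agent.L5helper26.CD

open Pool.Agent.L5helper26.CP

section flat

variable {κ P A : Type} [Fintype κ] [CommRing P] [Algebra ℂ P] [CommRing A] [Algebra ℂ A]
  [Algebra P A]

theorem syz_flat [Module.Flat P A] (B : κ → P) (hB : Syz B) :
    Syz fun k => algebraMap P A (B k) := by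
  intro u hu
  have h1 : ∑ k, B k • u k = 0 := by
    rw [← hu]
    refine Finset.sum_congr rfl fun k _ => ?_
    rw [Algebra.smul_def, mul_comm]
  obtain ⟨n, a, y, hy, ha⟩ := Module.Flat.isTrivialRelation_of_sum_smul_eq_zero
    (R := P) (M := A) (f := B) (x := u) h1
  have h2 : ∀ j, ∃ S : κ → κ → P, (∀ k m, S k m = -S m k) ∧
      ∀ k, a k j = ∑ m, S k m * B m := fun j => hB (fun k => a k j) (by
    rw [← ha j]
    exact Finset.sum_congr rfl fun k _ => mul_comm _ _)
  choose S hS hSa using h2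
  refine ⟨fun k m => ∑ j, y j * algebraMap P A (S j k m), fun k m => ?_, fun k => ?_⟩
  · beta_reduce
    rw [← Finset.sum_neg_distrib]
    refine Finset.sum_congr rfl fun j _ => ?_
    rw [hS j k m, map_neg, mul_neg]
  · rw [hy k]
    simp only [Finset.sum_mul]
    rw [Finset.sum_comm]
    refine Finset.sum_congr rfl fun j _ => ?_
    rw [hSa j k, Algebra.smul_def, map_sum, Finset.sum_mul]
    refine Finset.sum_congr rfl fun m _ => ?_
    rw [map_mul]
    ring

end flat

open MvPowerSeries Finsupp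

variable {κ : Type} [Fintype κ] [DecidableEq κ]

instance flat_ps : Module.Flat (MvPolynomial κ ℂ) (MvPowerSeries κ ℂ) :=
  Module.Flat.of_linearEquiv (toAdicCompletionAlgEquiv κ ℂ).toLinearEquiv

/-- series of large order are in the powers of the maximal ideal -/
theorem mem_pow_of_order (K : ℕ) (f : MvPowerSeries κ ℂ)
    (hf : ∀ n : κ →₀ ℕ, n.degree < K → coeff n f = 0) :
    f ∈ (Ideal.span (Set.range fun k : κ => (X k : MvPowerSeries κ ℂ))) ^ K := by
  induction K generalizing f with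
  | zero =>
    rw [pow_zero, Ideal.one_eq_top]
    exact Submodule.mem_top
  | succ K ih =>
    have h0 : constantCoeff f = 0 := by
      rw [← coeff_zero_eq_constantCoeff_apply]
      exact hf 0 (by simp)
    rw [eq_sum_dv f h0]
    refine Ideal.sum_mem _ fun m _ => ?_
    rw [pow_succ]
    refine Ideal.mul_mem_mul (ih _ fun n hn => ?_) (Ideal.subset_span ⟨m, rfl⟩)
    rw [coeff_dv, coeff_pderiv, hf (n + single m 1), zero_mul, mul_zero]
    rw [map_add, Finsupp.degree_single]
    omega

/-- **The syzygies of a system of parameters are trivial.** -/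
theorem syz_ps (g : κ → MvPowerSeries κ ℂ)
    (hg : ∀ k, ∃ M : ℕ, (X k : MvPowerSeries κ ℂ) ^ M ∈ Ideal.span (Set.range g)) : Syz g := by
  classical
  set 𝔪 : Ideal (MvPowerSeries κ ℂ) :=
    Ideal.span (Set.range fun k : κ => (X k : MvPowerSeries κ ℂ)) with hm
  set J : Ideal (MvPowerSeries κ ℂ) := Ideal.span (Set.range g) with hJ
  have hrad : 𝔪 ≤ J.radical := by
    rw [hm, Ideal.span_le]
    rintro _ ⟨k, rfl⟩
    obtain ⟨M, hM⟩ := hg k
    exact ⟨M, hM⟩
  have hfg : 𝔪.FG := ⟨Finset.univ.image fun k : κ => (X k : MvPowerSeries κ ℂ), by simp [hm]⟩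
  obtain ⟨N, hN⟩ := Ideal.exists_pow_le_of_le_radical_of_fg hrad hfg
  set p : κ → MvPolynomial κ ℂ := fun k => truncTotal (N + 1) (g k) with hp
  have hpDB : ∀ k, DB (N + 1) (p k) := fun k m hm => coeff_truncTotal_eq_zero _ hm
  have h1 := syz_top (N + 1) (Nat.succ_pos N) p hpDB
  have h2 := syz_flat (A := MvPowerSeries κ ℂ) _ h1
  have hcoe : ∀ k, algebraMap (MvPolynomial κ ℂ) (MvPowerSeries κ ℂ)
      (MvPolynomial.X k ^ (N + 1) + p k) = X k ^ (N + 1) + (p k : MvPowerSeries κ ℂ) := by
    intro k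
    have h3 : ∀ q : MvPolynomial κ ℂ, algebraMap (MvPolynomial κ ℂ) (MvPowerSeries κ ℂ) q =
        (q : MvPowerSeries κ ℂ) := fun q => by
      rw [MvPowerSeries.algebraMap_apply']
      simp
    rw [h3]
    simp
  have h3 : ∀ k, ∃ c : κ → MvPowerSeries κ ℂ, (∀ m, c m ∈ 𝔪) ∧
      (X k ^ (N + 1) + (p k : MvPowerSeries κ ℂ)) - g k = ∑ m, c m * g m := by
    intro k
    have h4 : (X k ^ (N + 1) + (p k : MvPowerSeries κ ℂ)) - g k ∈ 𝔪 ^ (N + 1) := by
      have h5 : (X k ^ (N + 1) + (p k : MvPowerSeries κ ℂ)) - g k =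
          X k ^ (N + 1) + ((p k : MvPowerSeries κ ℂ) - g k) := by ring
      rw [h5]
      have hXk : (X k : MvPowerSeries κ ℂ) ∈ 𝔪 := Ideal.subset_span ⟨k, rfl⟩
      refine Ideal.add_mem _ (Ideal.pow_mem_pow hXk _) ?_
      refine mem_pow_of_order _ _ fun n hn => ?_
      rw [map_sub, MvPolynomial.coeff_coe, hp, coeff_truncTotal _ hn, sub_self]
    have h5 : (X k ^ (N + 1) + (p k : MvPowerSeries κ ℂ)) - g k ∈ 𝔪 * J := by
      rw [pow_succ'] at h4
      exact Ideal.mul_mono_right hN h4
    rw [hJ, ← smul_eq_mul] at h5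
    obtain ⟨c, hc, hsum⟩ := (Submodule.mem_ideal_smul_span_iff_exists_sum _ _ _).1 h5
    refine ⟨c, hc, ?_⟩
    rw [← hsum, Finsupp.sum_fintype]
    · rfl
    · intro i
      rw [zero_smul]
  choose c hc1 hc2 using h3
  refine syz_matrix (1 + Matrix.of c) ?_ _ _ (fun k => ?_) h2
  · rw [isUnit_iff_constantCoeff, RingHom.map_det, map_add, map_one]
    have h7 : (constantCoeff (σ := κ) (R := ℂ)).mapMatrix (Matrix.of c) = 0 := by
      ext i j
      rw [RingHom.mapMatrix_apply, Matrix.map_apply, Matrix.of_apply, Matrix.zero_apply]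
      have h8 : 𝔪 ≤ RingHom.ker (constantCoeff (σ := κ) (R := ℂ)) := by
        rw [hm, Ideal.span_le]
        rintro _ ⟨k, rfl⟩
        exact constantCoeff_X k
      exact h8 (hc1 i j)
    rw [h7, add_zero, Matrix.det_one]
    exact isUnit_one
  · rw [hcoe]
    simp only [Matrix.add_apply, Matrix.of_apply, add_mul, Finset.sum_add_distrib]
    rw [← hc2 k]
    have h4 : ∑ m, (1 : Matrix κ κ (MvPowerSeries κ ℂ)) k m * g m = g k := by
      rw [Finset.sum_eq_single k]
      · rw [Matrix.one_apply_eq, one_mul]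
      · intro m _ hm
        rw [Matrix.one_apply_ne hm.symm, zero_mul]
      · intro h; exact absurd (Finset.mem_univ k) h
    rw [h4]
    ring

end Pool.Agent.L5helper26.CD
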