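import Pool.Agent.L5helper26.CD.Pole

set_option autoImplicit false
set_option linter.unusedSectionVars false

/-! # From the identity on the divisor to the logarithmic connection -/

namespace Pool.Agent.L5helper26.CD

open Pool.Agent.L5helper26.CP

variable {B κ : Type*} [CommRing B] [IsDomain B] [Algebra ℂ B] [Fintype κ] [DecidableEq κ]

theorem step1 (D : κ → Derivation ℂ B B) (ζ : κ → B) (hζ : ∀ w w', w' ≠ w → D w (ζ w') = 0)
    (Φ G c : B) (α : ℂ) (M : ℕ) (v : κ → ℕ → B)
    (h1 : ∀ i : ℕ, (if i = M then c else 0) = ∑ w, (Φ * D w (v w i) +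
      algebraMap ℂ B (α - M) * v w i * D w Φ +
      algebraMap ℂ B ((i : ℂ) + 1 + α - M) * Φ * D w G * v w (i + 1)))
    (h2 : ∑ w, algebraMap ℂ B (α - M) * D w G * v w 0 = 0) :
    ∃ x : κ → ℕ → B, (∀ i : ℕ, (if i = M then c * ∏ w, ζ w else 0) =
      ∑ w, (Φ * (ζ w * D w (x w i)) + algebraMap ℂ B (α - M) * x w i * (ζ w * D w Φ) +
      algebraMap ℂ B ((i : ℂ) + 1 + α - M) * Φ * (ζ w * D w G) * x w (i + 1))) ∧
      ∑ w, algebraMap ℂ B (α - M) * (ζ w * D w G) * x w 0 = 0 := by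
  have hZ : ∀ w, ζ w * ∏ w' ∈ Finset.univ.erase w, ζ w' = ∏ w, ζ w := fun w =>
    Finset.mul_prod_erase Finset.univ ζ (Finset.mem_univ w)
  have hd : ∀ w, D w (∏ w' ∈ Finset.univ.erase w, ζ w') = 0 := by
    intro w
    have key : ∀ s : Finset κ, w ∉ s → D w (∏ w' ∈ s, ζ w') = 0 := by
      intro s
      induction s using Finset.induction_on with
      | empty => intro _; rw [Finset.prod_empty, Derivation.map_one_eq_zero]
      | insert a s ha ih =>
        intro hs
        rw [Finset.prod_insert ha, Derivation.leibniz, ih (fun h => hs (Finset.mem_insert_of_mem h)),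
          hζ w a (fun h => hs (h ▸ Finset.mem_insert_self _ _)), smul_zero, smul_zero, add_zero]
    exact key _ (Finset.notMem_erase w _)
  refine ⟨fun w i => (∏ w' ∈ Finset.univ.erase w, ζ w') * v w i, fun i => ?_, ?_⟩
  · have h3 : (if i = M then c * ∏ w, ζ w else 0) = (if i = M then c else 0) * ∏ w, ζ w := by
      split_ifs
      · rfl
      · rw [zero_mul]
    rw [h3, h1, Finset.sum_mul]
    refine Finset.sum_congr rfl fun w _ => ?_
    rw [Derivation.leibniz, hd, smul_zero, add_zero, smul_eq_mul, ← hZ w]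
    ring
  · rw [← mul_zero (∏ w, ζ w), ← h2, Finset.mul_sum]
    refine Finset.sum_congr rfl fun w _ => ?_
    rw [← hZ w]
    ring

theorem step2 (D : κ → Derivation ℂ B B) (φ φ' m c : B) (hφ : φ * φ' = 1) (hm : m ≠ 0)
    (g : κ → B) (A : κ → ℂ) (hA : ∀ w, D w m = algebraMap ℂ B (A w) * m) (α : ℂ) (M : ℕ)
    (x : κ → ℕ → B)
    (h1 : ∀ i : ℕ, (if i = M then c * (m * φ) ^ (M + 1) else 0) = ∑ w, (m * φ * D w (x w i) +
      algebraMap ℂ B (α - M) * x w i * D w (m * φ) +
      algebraMap ℂ B ((i : ℂ) + 1 + α - M) * (m * φ) * g w * x w (i + 1)))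
    (h2 : ∑ w, algebraMap ℂ B (α - M) * g w * x w 0 = 0) :
    ∃ y : κ → ℕ → B, (∀ i : ℕ, (if i = M then c * m ^ M else 0) = ∑ w, (D w (y w i) +
      (algebraMap ℂ B ((α - M) * A w) + algebraMap ℂ B α * (φ' * D w φ)) * y w i +
      algebraMap ℂ B ((i : ℂ) + 1 + α - M) * (g w * y w (i + 1)))) ∧
      ∑ w, algebraMap ℂ B (α - M) * (g w * y w 0) = 0 := by
  have hφ0 : φ ≠ 0 := left_ne_zero_of_mul_eq_one hφ
  have hdφ : ∀ w, D w φ' = -(φ' ^ 2 * D w φ) := by
    intro w
    have h := Derivation.leibniz_of_mul_eq_one (D w) (a := φ') (b := φ) (by rw [mul_comm]; exact hφ)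
    rw [h, smul_eq_mul, neg_mul]
  have hpow : ∀ w (n : ℕ), D w (φ' ^ n) = -(algebraMap ℂ B n * φ' ^ n * (φ' * D w φ)) := by
    intro w n
    induction n with
    | zero => simp
    | succ n ih =>
      rw [pow_succ, Derivation.leibniz, ih, hdφ, smul_eq_mul, smul_eq_mul, map_natCast,
        map_natCast]
      push_cast
      ring
  have hφM : φ ^ M * φ' ^ M = 1 := by rw [← mul_pow, hφ, one_pow]
  refine ⟨fun w i => φ' ^ M * x w i, fun i => ?_, ?_⟩
  · refine mul_left_cancel₀ (mul_ne_zero hm hφ0) ?_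
    have h3 : m * φ * (if i = M then c * m ^ M else 0) =
        φ' ^ M * (if i = M then c * (m * φ) ^ (M + 1) else 0) := by
      split_ifs
      · rw [pow_succ, mul_pow]
        linear_combination (-m ^ M * c * m * φ) * hφM
      · rw [mul_zero, mul_zero]
    rw [h3, h1, Finset.mul_sum, Finset.mul_sum]
    refine Finset.sum_congr rfl fun w _ => ?_
    rw [Derivation.leibniz, Derivation.leibniz, hA, hpow, smul_eq_mul, smul_eq_mul, smul_eq_mul,
      smul_eq_mul]
    simp only [map_mul, map_sub, map_add, map_one]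
    linear_combination (-algebraMap ℂ B α * φ' ^ M * m * D w φ * x w i +
      algebraMap ℂ B M * φ' ^ M * m * D w φ * x w i) * hφ
  · have h4 : ∑ w, algebraMap ℂ B (α - M) * (g w * (φ' ^ M * x w 0)) =
        φ' ^ M * ∑ w, algebraMap ℂ B (α - M) * g w * x w 0 := by
      rw [Finset.mul_sum]
      exact Finset.sum_congr rfl fun w _ => by ring
    rw [h4, h2, mul_zero]

/-- the solution of the logarithmic equation -/
theorem step3 {τ : Type*} [Fintype τ] [DecidableEq τ] (P : Pk B (κ ⊕ τ)) (Q : κ ⊕ τ → ℕ) (c : B)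
    (M : ℕ) (y : κ → ℕ → B)
    (h1 : ∀ i : ℕ, (if i = M then c * ∏ w, P.z w ^ Q w else 0) = ∑ w, (P.D (Sum.inl w) (y w i) +
      P.hq Q (Sum.inl w) * y w i +
      algebraMap ℂ B ((i : ℂ) + 1 + P.α - M) * (P.g (Sum.inl w) * y w (i + 1))))
    (h2 : ∑ w, algebraMap ℂ B (P.α - M) * (P.g (Sum.inl w) * y w 0) = 0) : P.Sol Q c := by
  let W : κ ⊕ τ → ℤ → B := fun w r => match w with
    | Sum.inl w => if r ≤ M then y w ((M : ℤ) - r).toNat else 0
    | Sum.inr _ => 0
  have hW1 : ∀ w (r : ℤ), r ≤ M → W (Sum.inl w) r = y w ((M : ℤ) - r).toNat :=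
    fun w r hr => if_pos hr
  have hW2 : ∀ w (r : ℤ), (M : ℤ) < r → W (Sum.inl w) r = 0 := fun w r hr => if_neg (by omega)
  have hW3 : ∀ t (r : ℤ), W (Sum.inr t) r = 0 := fun _ _ => rfl
  refine ⟨W, ⟨M, fun w r hr => ?_⟩, fun r => ?_⟩
  · rcases w with w | t
    · exact hW2 w r hr
    · rfl
  · rw [Fintype.sum_sum_type]
    have h3 : ∑ t, P.nt Q (Sum.inr t) (W (Sum.inr t)) r = 0 := by
      refine Finset.sum_eq_zero fun t _ => ?_
      rw [Pk.nt, hW3 t r, nab_zero, mul_zero, mul_zero, add_zero]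
    rw [h3, add_zero]
    by_cases hr : r ≤ M
    · have h4 := h1 ((M : ℤ) - r).toNat
      have h5 : (((M : ℤ) - r).toNat = M) ↔ r = 0 := by omega
      have h6 : (((((M : ℤ) - r).toNat : ℕ) : ℂ)) = (M : ℂ) - r := by
        have h7 : ((((M : ℤ) - r).toNat : ℕ) : ℤ) = (M : ℤ) - r := Int.toNat_of_nonneg (by omega)
        have h8 : (((((M : ℤ) - r).toNat : ℕ) : ℤ) : ℂ) = (((M : ℤ) - r : ℤ) : ℂ) := by rw [h7]
        push_cast at h8
        exact h8
      simp only [h5] at h4
      rw [h4]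
      refine Finset.sum_congr rfl fun w _ => ?_
      rw [Pk.nt, hW1 w r hr, hW1 w (r - 1) (by omega), nab, h6]
      have h9 : ((M : ℤ) - (r - 1)).toNat = ((M : ℤ) - r).toNat + 1 := by omega
      have h10 : (M : ℂ) - r + 1 + P.α - M = 1 + P.α - r := by ring
      rw [h9, h10]
    · have h4 : ¬ (r = 0) := by omega
      rw [if_neg h4]
      by_cases h5 : r = M + 1
      · rw [← h2]
        refine Finset.sum_congr rfl fun w _ => ?_
        rw [Pk.nt, hW2 w r (by omega), hW1 w (r - 1) (by omega), nab_zero, zero_add]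
        have h6 : ((M : ℤ) - (r - 1)).toNat = 0 := by omega
        have h7 : (1 : ℂ) + P.α - r = P.α - M := by
          rw [h5]
          push_cast
          ring
        rw [h6, h7]
      · refine Finset.sum_eq_zero fun w _ => ?_
        rw [Pk.nt, hW2 w r (by omega), hW2 w (r - 1) (by omega), nab_zero, mul_zero, mul_zero,
          add_zero]

end Pool.Agent.L5helper26.CD
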