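import Pool.Agent.L5helper26.CD.Exp
import Pool.Agent.L5helper26.CD.Steps
import Pool.Agent.L5helper26.CD.PsIso
import Pool.Agent.L5helper26.CD.Gens
import Pool.Agent.L5helper26.CP.Cri

set_option autoImplicit false
set_option linter.unusedSectionVars false

/-! # The main theorem on critical points on divisors -/

namespace Pool.Agent.L5helper26.CD

open Pool.Agent.H628R4.TP Pool.Agent.W574.HS Pool.Agent.L5helper26.CP

section log

variable {κ τ : Type} [Fintype κ]

/-- the monomial in the coordinates of `E` with the given exponents -/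
noncomputable def mon (A : κ → ℕ) : MvPowerSeries (κ ⊕ τ) ℂ :=
  ∏ w, MvPowerSeries.X (Sum.inl w) ^ A w

/-- the factor of the logarithmic derivation -/
noncomputable def zt (A : κ → ℕ) : κ ⊕ τ → MvPowerSeries (κ ⊕ τ) ℂ
  | Sum.inl w => if A w = 0 then 1 else MvPowerSeries.X (Sum.inl w)
  | Sum.inr _ => 1

/-- the logarithmic derivations: `w ∂ / ∂w` if `A w ≠ 0`, and `∂ / ∂w` otherwise -/
noncomputable def lg (A : κ → ℕ) (i : κ ⊕ τ) :
    Derivation ℂ (MvPowerSeries (κ ⊕ τ) ℂ) (MvPowerSeries (κ ⊕ τ) ℂ) :=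
  zt A i • MvPowerSeries.pderiv ℂ i

theorem lg_apply (A : κ → ℕ) (i : κ ⊕ τ) (a : MvPowerSeries (κ ⊕ τ) ℂ) :
    lg A i a = zt A i * MvPowerSeries.pderiv ℂ i a := rfl

theorem pd_zt (A : κ → ℕ) (i j : κ ⊕ τ) (h : i ≠ j) :
    MvPowerSeries.pderiv ℂ i (zt A j) = 0 := by
  rcases j with w | t
  · change MvPowerSeries.pderiv ℂ i (if A w = 0 then 1 else MvPowerSeries.X (Sum.inl w)) = 0
    split_ifs
    · exact Derivation.map_one_eq_zero _
    · exact MvPowerSeries.pderiv_X_of_ne h.symm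
  · exact Derivation.map_one_eq_zero _

theorem lg_comm (A : κ → ℕ) (i j : κ ⊕ τ) (a : MvPowerSeries (κ ⊕ τ) ℂ) :
    lg A i (lg A j a) = lg A j (lg A i a) := by
  by_cases h : i = j
  · rw [h]
  · simp only [lg_apply, Derivation.leibniz, pd_zt A i j h, pd_zt A j i (Ne.symm h), smul_zero,
      add_zero, smul_eq_mul, ps_comm i j]
    ring

theorem pd_mon [DecidableEq κ] (A : κ → ℕ) (w : κ) :
    MvPowerSeries.X (Sum.inl w) * MvPowerSeries.pderiv ℂ (Sum.inl w)
      (mon A : MvPowerSeries (κ ⊕ τ) ℂ) = (A w : MvPowerSeries (κ ⊕ τ) ℂ) * mon A := by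
  have hd : ∀ s : Finset κ, w ∉ s → MvPowerSeries.pderiv ℂ (Sum.inl w)
      (∏ w' ∈ s, MvPowerSeries.X (Sum.inl w') ^ A w' : MvPowerSeries (κ ⊕ τ) ℂ) = 0 := by
    intro s
    induction s using Finset.induction_on with
    | empty => intro _; rw [Finset.prod_empty, Derivation.map_one_eq_zero]
    | insert a s ha ih =>
      intro hs
      have haw : (Sum.inl a : κ ⊕ τ) ≠ Sum.inl w := fun h =>
        hs (by rw [Sum.inl_injective h]; exact Finset.mem_insert_self _ _)
      rw [Finset.prod_insert ha, Derivation.leibniz, ih (fun h => hs (Finset.mem_insert_of_mem h)),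
        Derivation.leibniz_pow, MvPowerSeries.pderiv_X_of_ne haw, smul_zero, smul_zero, smul_zero,
        smul_zero, add_zero]
  have h1 : (mon A : MvPowerSeries (κ ⊕ τ) ℂ) = MvPowerSeries.X (Sum.inl w) ^ A w *
      ∏ w' ∈ Finset.univ.erase w, MvPowerSeries.X (Sum.inl w') ^ A w' :=
    (Finset.mul_prod_erase Finset.univ _ (Finset.mem_univ w)).symm
  rw [h1, Derivation.leibniz, hd _ (Finset.notMem_erase w _), smul_zero, zero_add,
    Derivation.leibniz_pow, MvPowerSeries.pderiv_X_self, smul_eq_mul, smul_eq_mul, nsmul_eq_mul,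
    mul_one]
  rcases Nat.eq_zero_or_pos (A w) with h | h
  · rw [h, Nat.cast_zero, zero_mul, mul_zero, mul_zero, zero_mul]
  · obtain ⟨n, hn⟩ : ∃ n, A w = n + 1 := ⟨A w - 1, by omega⟩
    rw [hn, Nat.add_sub_cancel]
    ring

instance dom_ps (κ : Type) : IsDomain (MvPowerSeries κ ℂ) := NoZeroDivisors.to_isDomain _

theorem X_ne (κ : Type) (i : κ) : (MvPowerSeries.X i : MvPowerSeries κ ℂ) ≠ 0 := by
  classical
  intro h
  have h1 := congrArg (MvPowerSeries.coeff (Finsupp.single i 1)) h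
  rw [MvPowerSeries.coeff_X, if_pos rfl, map_zero] at h1
  exact one_ne_zero h1

theorem mon_ne_zero (A : κ → ℕ) : (mon A : MvPowerSeries (κ ⊕ τ) ℂ) ≠ 0 :=
  Finset.prod_ne_zero_iff.2 fun _ _ => pow_ne_zero _ (X_ne _ _)

end log

variable {ι σ κ τ : Type} [Fintype ι] [DecidableEq ι] [Fintype σ] [DecidableEq σ]
  [Fintype κ] [DecidableEq κ] [Fintype τ] [DecidableEq τ]

/-- **Isolated critical points on divisors**: the case of generators. -/
theorem crit_log (f : ι → MvPolynomial σ ℂ) (b : Polynomial ℂ)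
    (hb : IsBFunction (univ f) ((Polynomial.X + 1) * b)) (p : MvPolynomial σ ℂ)
    (e : σ ≃ Option κ) (ξ : σ → PowerSeries (MvPowerSeries (κ ⊕ τ) ℂ)) (k a l : ℕ) (hl : l < a)
    (A K0 K1 : κ → ℕ) (hK0 : ∀ w, A w = 0 → K0 w = 0) (hK1 : ∀ w, A w = 0 → K1 w = 0)
    (U0 U2 : PowerSeries (MvPowerSeries (κ ⊕ τ) ℂ))
    (u : ι → PowerSeries (MvPowerSeries (κ ⊕ τ) ℂ))
    (hJ : (Matrix.of fun t i => thd (fun w : κ => MvPowerSeries.pderiv ℂ (Sum.inl w : κ ⊕ τ))
      (e t) (ξ i)).det = PowerSeries.X ^ k * (PowerSeries.C (mon K0) * U0))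
    (hdiv : ∀ j, MvPolynomial.aeval ξ (f j) = PowerSeries.X ^ a * (PowerSeries.C (mon A) * u j))
    (hp : MvPolynomial.aeval ξ p = PowerSeries.X ^ l * (PowerSeries.C (mon K1) * U2))
    (Y : ι → MvPowerSeries (κ ⊕ τ) ℂ)
    (hY : ∀ (w : κ) j, MvPowerSeries.pderiv ℂ (Sum.inl w) (Y j) = 0) (j0 : ι)
    (hj0 : IsUnit (PowerSeries.constantCoeff (u j0))) (G : MvPowerSeries (κ ⊕ τ) ℂ)
    (hG : G * PowerSeries.constantCoeff (u j0) = ∑ j, Y j * PowerSeries.constantCoeff (u j))
    (α : ℂ) (hα : (a : ℂ) * α + (k + l + 1) = 0)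
    (hε : ∀ w, A w ≠ 0 → ∀ n : ℕ, 0 < n → (K0 w : ℂ) + K1 w + 1 + α * A w ≠ n)
    (hiso : ∀ i, ∃ M : ℕ, (MvPowerSeries.X i : MvPowerSeries (κ ⊕ τ) ℂ) ^ M ∈
      Ideal.span (Set.range fun i => lg A i G))
    (hω : PowerSeries.constantCoeff U0 * PowerSeries.constantCoeff U2 ∉
      Ideal.span (Set.range fun i => lg A i G)) : b.eval α = 0 := by
  classical
  set φ := PowerSeries.constantCoeff (u j0) with hφ
  obtain ⟨φ', hφφ'⟩ := hj0.exists_right_inv
  set m : MvPowerSeries (κ ⊕ τ) ℂ := mon A with hm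
  have hm0 : m ≠ 0 := mon_ne_zero A
  have hφ0 : φ ≠ 0 := left_ne_zero_of_mul_eq_one hφφ'
  have hC : ∀ j, PowerSeries.constantCoeff (PowerSeries.C m * u j) =
      m * PowerSeries.constantCoeff (u j) := fun j => by
    rw [map_mul, PowerSeries.constantCoeff_C]
  obtain ⟨M, v, hv1, hv2⟩ := exp_key f b hb p e
    (fun w : κ => MvPowerSeries.pderiv ℂ (Sum.inl w : κ ⊕ τ)) (fun w w' a => ps_comm _ _ a) ξ
    k a l hl (PowerSeries.C (mon K0) * U0) (PowerSeries.C (mon K1) * U2)
    (fun j => PowerSeries.C m * u j) hJ hdiv hp Y hY j0 G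
    (by
      simp only [hC]
      rw [← hφ]
      have h1 : ∀ j, Y j * (m * PowerSeries.constantCoeff (u j)) =
          m * (Y j * PowerSeries.constantCoeff (u j)) := fun j => by ring
      rw [Finset.sum_congr rfl fun j _ => h1 j, ← Finset.mul_sum, ← hG]
      ring)
    (by
      rw [hC]
      exact mul_ne_zero hm0 hφ0) α hα
  rw [hC, ← hφ] at hv1
  have hU0 : PowerSeries.constantCoeff (PowerSeries.C (mon K0) * U0) =
      mon K0 * PowerSeries.constantCoeff U0 := by rw [map_mul, PowerSeries.constantCoeff_C]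
  have hU2 : PowerSeries.constantCoeff (PowerSeries.C (mon K1) * U2) =
      mon K1 * PowerSeries.constantCoeff U2 := by rw [map_mul, PowerSeries.constantCoeff_C]
  rw [hU0, hU2] at hv1
  -- step 1
  obtain ⟨x, hx1, hx2⟩ := step1 (fun w : κ => MvPowerSeries.pderiv ℂ (Sum.inl w : κ ⊕ τ))
    (fun w => zt A (Sum.inl w)) (fun w w' h => pd_zt A _ _ (fun h' => h (Sum.inl_injective h').symm))
    (m * φ) G _ α M v hv1 hv2
  -- step 2
  have hA : ∀ w : κ, lg A (Sum.inl w) m =
      algebraMap ℂ (MvPowerSeries (κ ⊕ τ) ℂ) ((A w : ℕ) : ℂ) * m := by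
    intro w
    rw [lg_apply, map_natCast]
    by_cases h : A w = 0
    · have h2 := pd_mon (τ := τ) A w
      rw [h, Nat.cast_zero, zero_mul] at h2
      rw [h, Nat.cast_zero, zero_mul]
      have h3 := (mul_eq_zero.1 h2).resolve_left (X_ne _ _)
      rw [← hm] at h3
      rw [h3, mul_zero]
    · have h2 : zt A (Sum.inl w : κ ⊕ τ) = MvPowerSeries.X (Sum.inl w) := if_neg h
      rw [h2, hm]
      exact pd_mon A w
  obtain ⟨y, hy1, hy2⟩ := step2 (fun w : κ => lg A (Sum.inl w : κ ⊕ τ)) φ φ' m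
    (algebraMap ℂ _ (b.eval α) * (mon K0 * PowerSeries.constantCoeff U0 *
      (mon K1 * PowerSeries.constantCoeff U2)) * ∏ w, zt A (Sum.inl w : κ ⊕ τ)) hφφ' hm0
    (fun w => lg A (Sum.inl w) G) (fun w => A w) hA α M x
    (fun i => by
      refine Eq.trans ?_ (hx1 i)
      split_ifs
      · ring
      · rfl) hx2
  -- step 3
  set c0 : MvPowerSeries (κ ⊕ τ) ℂ := algebraMap ℂ _ (b.eval α) *
    (PowerSeries.constantCoeff U0 * PowerSeries.constantCoeff U2) with hc0
  have hdφ : ∀ i, lg A i φ' = -(φ' ^ 2 * lg A i φ) := by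
    intro i
    have h := Derivation.leibniz_of_mul_eq_one (lg A i) (a := φ') (b := φ)
      (by rw [mul_comm]; exact hφφ')
    rw [h, smul_eq_mul, neg_mul]
  let P : Pk (MvPowerSeries (κ ⊕ τ) ℂ) (κ ⊕ τ) :=
    { D := lg A
      h := fun i => algebraMap ℂ _ α * (φ' * lg A i φ)
      g := fun i => lg A i G
      z := fun i => MvPowerSeries.X i
      ε := Sum.elim (fun w => if A w = 0 then 0 else (K0 w : ℂ) + K1 w + 1 + α * A w) 0
      α := α
      hD := lg_comm A
      hh := fun i j => by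
        simp only [Derivation.leibniz, Derivation.map_algebraMap, smul_eq_mul, hdφ,
          lg_comm A i j φ]
        ring
      hg := fun i j => lg_comm A i j G }
  let Q : κ ⊕ τ → ℕ := Sum.elim (fun w => if A w = 0 then 0 else K0 w + K1 w + 1 + M * A w) 0
  have hprod : mon K0 * mon K1 * (∏ w, zt A (Sum.inl w : κ ⊕ τ)) * m ^ M =
      ∏ i, (MvPowerSeries.X i : MvPowerSeries (κ ⊕ τ) ℂ) ^ Q i := by
    have h1 : ∏ t : τ, (MvPowerSeries.X (Sum.inr t) : MvPowerSeries (κ ⊕ τ) ℂ) ^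
        Q (Sum.inr t) = 1 := Finset.prod_eq_one fun t _ => pow_zero _
    rw [Fintype.prod_sum_type, h1, mul_one, hm, mon, mon, mon, ← Finset.prod_mul_distrib,
      ← Finset.prod_mul_distrib, ← Finset.prod_pow, ← Finset.prod_mul_distrib]
    refine Finset.prod_congr rfl fun w _ => ?_
    by_cases h : A w = 0
    · have h2 : zt A (Sum.inl w : κ ⊕ τ) = 1 := if_pos h
      have h3 : Q (Sum.inl w) = 0 := if_pos h
      rw [h2, h3, h, hK0 w h, hK1 w h]
      simp
    · have h2 : zt A (Sum.inl w : κ ⊕ τ) = MvPowerSeries.X (Sum.inl w) := if_neg h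
      have h3 : Q (Sum.inl w) = K0 w + K1 w + 1 + M * A w := if_neg h
      rw [h2, h3]
      ring
  have hsol : P.Sol Q c0 := by
    refine step3 P Q c0 M y (fun i => ?_) ?_
    · have h1 := hy1 i
      have h2 : (if i = M then c0 * ∏ w, P.z w ^ Q w else 0) =
          (if i = M then algebraMap ℂ _ (b.eval α) * (mon K0 * PowerSeries.constantCoeff U0 *
            (mon K1 * PowerSeries.constantCoeff U2)) * (∏ w, zt A (Sum.inl w : κ ⊕ τ)) *
              m ^ M else 0) := by
        split_ifs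
        · change c0 * ∏ i, (MvPowerSeries.X i : MvPowerSeries (κ ⊕ τ) ℂ) ^ Q i = _
          rw [← hprod, hc0]
          ring
        · rfl
      rw [h2, h1]
      refine Finset.sum_congr rfl fun w _ => ?_
      have h3 : P.hq Q (Sum.inl w) = algebraMap ℂ _ ((α - M) * A w) +
          algebraMap ℂ _ α * (φ' * lg A (Sum.inl w) φ) := by
        change algebraMap ℂ _ α * (φ' * lg A (Sum.inl w) φ) + algebraMap ℂ _
          ((if A w = 0 then 0 else (K0 w : ℂ) + K1 w + 1 + α * A w) -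
            ((if A w = 0 then 0 else K0 w + K1 w + 1 + M * A w : ℕ) : ℂ)) = _
        rw [add_comm]
        congr 2
        split_ifs with h
        · rw [h]
          simp
        · push_cast
          ring
      rw [h3]
    · exact hy2
  have hα0 : ∀ n : ℕ, α ≠ n := by
    intro n h
    rw [h] at hα
    have h1 : ((a * n + (k + l + 1) : ℕ) : ℂ) = 0 := by
      push_cast
      exact hα
    have h2 : a * n + (k + l + 1) = 0 := by exact_mod_cast h1
    omega
  have hgood : ∀ i, 0 < Q i → P.Good i := by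
    intro i hi
    rcases i with w | t
    · have hw : A w ≠ 0 := by
        intro h
        have h3 : Q (Sum.inl w) = 0 := if_pos h
        omega
      have hz : zt A (Sum.inl w : κ ⊕ τ) = MvPowerSeries.X (Sum.inl w) := if_neg hw
      have hdvd : ∀ c, (MvPowerSeries.X (Sum.inl w) : MvPowerSeries (κ ⊕ τ) ℂ) ∣
          lg A (Sum.inl w) c := fun c => by
        rw [lg_apply, hz]
        exact Dvd.intro _ rfl
      refine ⟨X_ne _ _, fun j hj => ?_, ?_, hdvd, ?_, hdvd G, fun n hn => ?_⟩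
      · change lg A j (MvPowerSeries.X (Sum.inl w)) = 0
        rw [lg_apply, MvPowerSeries.pderiv_X_of_ne hj.symm, mul_zero]
      · change lg A (Sum.inl w) (MvPowerSeries.X (Sum.inl w)) = MvPowerSeries.X (Sum.inl w)
        rw [lg_apply, MvPowerSeries.pderiv_X_self, mul_one, hz]
      · exact Dvd.dvd.mul_left (Dvd.dvd.mul_left (hdvd φ) _) _
      · have h4 : P.ε (Sum.inl w) = (K0 w : ℂ) + K1 w + 1 + α * A w := if_neg hw
        rw [h4]
        exact hε w hw n hn
    · exact absurd hi (lt_irrefl 0)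
  have hmem : c0 ∈ Ideal.span (Set.range fun i => lg A i G) :=
    P.sol_mem hα0 (syz_ps _ hiso) c0 (P.sol_zero c0 _ Q rfl hgood hsol)
  by_contra hb0
  apply hω
  have h1 := Ideal.mul_mem_left _ (algebraMap ℂ _ (b.eval α)⁻¹) hmem
  rw [hc0, ← mul_assoc, ← map_mul, inv_mul_cancel₀ hb0, map_one, one_mul] at h1
  exact h1

end Pool.Agent.L5helper26.CD
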