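import Pool.Agent.L5helper26.CP.Kos

set_option autoImplicit false
set_option linter.unusedSectionVars false

/-! # Exactness in `A[τ]` for connections: the operator `W ↦ ∑ (D_k + h_k - τ g_k) W_k` -/

namespace Pool.Agent.L5helper26.CD

open Pool.Agent.L5helper26.CP

variable {A : Type*} [CommRing A] [Algebra ℂ A] {κ : Type*} [Fintype κ]

/-- the connection -/
def nab (D : κ → Derivation ℂ A A) (h : κ → A) (k : κ) (a : A) : A := D k a + h k * a

/-- the coefficient of `τ ^ i` of `∑_k (D_k + h_k - τ g_k) W_k` -/
def tfn (D : κ → Derivation ℂ A A) (h g : κ → A) (W : ℕ → κ → A) : ℕ → A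
  | 0 => ∑ k, nab D h k (W 0 k)
  | i + 1 => ∑ k, nab D h k (W (i + 1) k) - ∑ k, g k * W i k

variable {D : κ → Derivation ℂ A A} {h g : κ → A}

theorem nab_zero (k : κ) : nab D h k 0 = 0 := by simp [nab]

theorem nab_add (k : κ) (a b : A) : nab D h k (a + b) = nab D h k a + nab D h k b := by
  simp only [nab, map_add]
  ring

theorem nab_sum {ι : Type*} (k : κ) (s : Finset ι) (a : ι → A) :
    nab D h k (∑ i ∈ s, a i) = ∑ i ∈ s, nab D h k (a i) := by
  simp only [nab, map_sum, Finset.mul_sum, Finset.sum_add_distrib]

theorem nab_neg (k : κ) (a : A) : nab D h k (-a) = -nab D h k a := by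
  simp only [nab, map_neg]
  ring

theorem nab_smul (k : κ) (c : ℂ) (a : A) : nab D h k (c • a) = c • nab D h k a := by
  simp only [nab, Derivation.map_smul, mul_smul_comm, smul_add]

theorem nab_mul (k : κ) (a b : A) : nab D h k (a * b) = a * nab D h k b + b * D k a := by
  simp only [nab, Derivation.leibniz, smul_eq_mul]
  ring

theorem nab_comm (hcomm : ∀ k m a, D k (D m a) = D m (D k a)) (hh : ∀ k m, D k (h m) = D m (h k))
    (k m : κ) (a : A) : nab D h k (nab D h m a) = nab D h m (nab D h k a) := by
  simp only [nab, map_add, Derivation.leibniz, smul_eq_mul, hcomm k m, hh k m]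
  ring

theorem nab_anti {S : κ → κ → A} (hS : ∀ k m, S k m = -S m k)
    (hcomm : ∀ k m a, D k (D m a) = D m (D k a)) (hh : ∀ k m, D k (h m) = D m (h k)) :
    ∑ k, ∑ m, nab D h k (nab D h m (S k m)) = 0 := by
  have h1 : ∑ k, ∑ m, nab D h k (nab D h m (S k m)) =
      -∑ k, ∑ m, nab D h k (nab D h m (S k m)) := by
    conv_lhs => rw [Finset.sum_comm]
    rw [← Finset.sum_neg_distrib]
    refine Finset.sum_congr rfl fun k _ => ?_
    rw [← Finset.sum_neg_distrib]
    refine Finset.sum_congr rfl fun m _ => ?_
    rw [hS m k, nab_comm hcomm hh m k, nab_neg, nab_neg]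
  have h2 : (2 : ℂ) • ∑ k, ∑ m, nab D h k (nab D h m (S k m)) = 0 := by
    rw [two_smul]
    nth_rewrite 1 [h1]
    ring
  rcases smul_eq_zero.1 h2 with h3 | h3
  · norm_num at h3
  · exact h3

/-- the derivatives of a trivial syzygy -/
theorem nab_syz {S : κ → κ → A} (hS : ∀ k m, S k m = -S m k) (hsym : ∀ k m, D k (g m) = D m (g k))
    (w : κ → A) (hw : ∀ k, w k = ∑ m, S k m * g m) :
    ∑ k, nab D h k (w k) = ∑ k, ∑ m, g m * nab D h k (S k m) := by
  have h5 : ∀ k, nab D h k (w k) = ∑ m, g m * nab D h k (S k m) + ∑ m, S k m * D k (g m) := by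
    intro k
    rw [hw k, nab_sum, ← Finset.sum_add_distrib]
    refine Finset.sum_congr rfl fun m _ => ?_
    rw [mul_comm, nab_mul]
  rw [Finset.sum_congr rfl fun k _ => h5 k, Finset.sum_add_distrib, sum_anti hS hsym, add_zero]

/-- **Constants in the image are in the ideal.** -/
theorem const_mem_nab (hcomm : ∀ k m a, D k (D m a) = D m (D k a))
    (hh : ∀ k m, D k (h m) = D m (h k)) (hsym : ∀ k m, D k (g m) = D m (g k))
    (hsyz : Syz g) (c : A) (N : ℕ) (W : ℕ → κ → A) (hN : ∀ i, N < i → W i = 0)
    (hW : ∀ i, sg 0 c i = tfn D h g W i) : c ∈ Ideal.span (Set.range g) := by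
  classical
  induction N generalizing W with
  | zero =>
    have h1 := hW 1
    rw [tfn, hN 1 one_pos] at h1
    have h2 : ∑ k, W 0 k * g k = 0 := by
      have h3 : sg 0 c 1 = (0 : A) := rfl
      rw [h3] at h1
      simp only [Pi.zero_apply, nab_zero, Finset.sum_const_zero, zero_sub] at h1
      rw [← neg_eq_zero, h1]
      congr 1
      exact Finset.sum_congr rfl fun k _ => mul_comm _ _
    obtain ⟨S, hS, hu⟩ := hsyz _ h2
    have h3 : c = ∑ k, nab D h k (W 0 k) := hW 0
    rw [h3, nab_syz hS hsym _ hu]
    exact Ideal.sum_mem _ fun k _ => Ideal.sum_mem _ fun m _ =>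
      Ideal.mul_mem_right _ _ (Ideal.subset_span ⟨m, rfl⟩)
  | succ N ih =>
    have h1 := hW (N + 2)
    rw [tfn, hN (N + 1 + 1) (by omega)] at h1
    have h2 : ∑ k, W (N + 1) k * g k = 0 := by
      have h3 : sg 0 c (N + 2) = (0 : A) := by simp [sg]
      rw [h3] at h1
      simp only [Pi.zero_apply, nab_zero, Finset.sum_const_zero, zero_sub] at h1
      rw [← neg_eq_zero, h1]
      congr 1
      exact Finset.sum_congr rfl fun k _ => mul_comm _ _
    obtain ⟨S, hS, hu⟩ := hsyz _ h2
    let W' : ℕ → κ → A := fun i => if i = N + 1 then 0 else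
      if i = N then fun k => W N k + ∑ m, nab D h m (S k m) else W i
    refine ih W' (fun i hi => ?_) fun i => ?_
    · by_cases h3 : i = N + 1
      · simp [W', h3]
      · have h4 : i ≠ N := by omega
        simp only [W', if_neg h3, if_neg h4]
        exact hN i (by omega)
    · have hsum : ∑ k, nab D h k (W N k + ∑ m, nab D h m (S k m)) = ∑ k, nab D h k (W N k) := by
        simp only [nab_add, nab_sum, Finset.sum_add_distrib]
        rw [nab_anti hS hcomm hh, add_zero]
      have hD : ∑ k, nab D h k (W (N + 1) k) = ∑ k, ∑ m, g m * nab D h k (S k m) :=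
        nab_syz hS hsym _ hu
      rcases i with _ | i
      · rcases Nat.eq_zero_or_pos N with h0 | h0
        · subst h0
          have e1 : tfn D h g W' 0 = ∑ k, nab D h k (W 0 k + ∑ m, nab D h m (S k m)) := by
            simp [tfn, W']
          rw [e1, hsum]
          exact hW 0
        · have h3 : (0 : ℕ) ≠ N := by omega
          have e1 : tfn D h g W' 0 = ∑ k, nab D h k (W 0 k) := by
            simp [tfn, W', h3]
          rw [e1]
          exact hW 0
      · rw [hW (i + 1)]
        by_cases h3 : i = N + 1
        · subst h3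
          have h4 : ¬ (N + 1 + 1 = N) := by omega
          have h5 : W (N + 1 + 1) = 0 := hN _ (by omega)
          have e2 : ∑ k, g k * W (N + 1) k = 0 := by
            rw [← h2]
            exact Finset.sum_congr rfl fun k _ => mul_comm _ _
          have h10 : ¬ (N + 1 + 1 = N + 1) := by omega
          simp only [tfn, W', if_neg h10, if_neg h4, if_true, h5, Pi.zero_apply, nab_zero,
            mul_zero, Finset.sum_const_zero, sub_zero, e2]
        · by_cases h4 : i = N
          · subst h4
            have e1 : tfn D h g W' (i + 1) =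
                -∑ k, g k * (W i k + ∑ m, nab D h m (S k m)) := by
              simp [tfn, W', nab_zero]
            rw [e1, tfn, hD]
            have e3 : ∑ k, g k * ∑ m, nab D h m (S k m) =
                -∑ k, ∑ m, g m * nab D h k (S k m) := by
              simp only [Finset.mul_sum]
              rw [Finset.sum_comm, ← Finset.sum_neg_distrib]
              refine Finset.sum_congr rfl fun k _ => ?_
              rw [← Finset.sum_neg_distrib]
              refine Finset.sum_congr rfl fun m _ => ?_
              rw [hS m k, nab_neg]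
              ring
            simp only [mul_add, Finset.sum_add_distrib]
            rw [e3]
            ring
          · by_cases h5 : i + 1 = N
            · have h6 : ¬ (i = N + 1) := h3
              have h8 : W N = W (i + 1) := by rw [h5]
              have e1 : tfn D h g W' (i + 1) =
                  ∑ k, nab D h k (W N k + ∑ m, nab D h m (S k m)) - ∑ k, g k * W i k := by
                have h9 : ¬ (i + 1 = N + 1) := by omega
                simp only [tfn, W', if_neg h9, if_pos h5, if_neg h3, if_neg h4]
              rw [e1, hsum, h8, tfn]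
            · have h9 : ¬ (i + 1 = N + 1) := by omega
              simp only [tfn, W', if_neg h9, if_neg h5, if_neg h3, if_neg h4]

end Pool.Agent.L5helper26.CD
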