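import Mathlib

set_option autoImplicit false
set_option linter.unusedSectionVars false

/-! # The change of variables for divergences, coefficientwise derivations -/

namespace Pool.Agent.L5helper26.CD

section PiolaR

variable {σ R : Type*} [Fintype σ] [DecidableEq σ] [CommRing R] [Algebra ℂ R]

theorem self_eq_neg_R {M : Type*} [AddCommGroup M] [Module ℂ M] {x : M} (h : x = -x) : x = 0 := by
  have h2 : (2 : ℂ) • x = 0 := by
    rw [two_smul]
    nth_rewrite 1 [h]
    exact neg_add_cancel x
  rcases smul_eq_zero.1 h2 with h3 | h3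
  · norm_num at h3
  · exact h3

theorem deriv_prod_R (d : Derivation ℂ R R) (s : Finset σ) (g : σ → R) :
    d (∏ k ∈ s, g k) = ∑ k ∈ s, d (g k) * ∏ l ∈ s.erase k, g l := by
  induction s using Finset.induction_on with
  | empty => simp
  | insert a s ha ih =>
    rw [Finset.prod_insert ha, Derivation.leibniz, ih, Finset.sum_insert ha,
      Finset.erase_insert ha, smul_eq_mul, smul_eq_mul, Finset.mul_sum, add_comm]
    congr 1
    · ring
    · refine Finset.sum_congr rfl fun k hk => ?_
      have hka : k ≠ a := fun h => ha (h ▸ hk)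
      rw [Finset.erase_insert_of_ne (fun h => hka h.symm), Finset.prod_insert]
      · ring
      · intro h; exact ha (Finset.mem_of_mem_erase h)

/-- The determinant of the matrix of derivatives is a sum of derivatives. -/
theorem det_eq_sum_R (θ : σ → Derivation ℂ R R)
    (hcomm : ∀ s t u, θ s (θ t u) = θ t (θ s u)) (i0 : σ) (η : σ → R) :
    Matrix.det (Matrix.of fun t k => θ t (η k)) = ∑ π : Equiv.Perm σ, θ (π i0)
      ((Equiv.Perm.sign π : ℤ) • (η i0 * ∏ k ∈ Finset.univ.erase i0, θ (π k) (η k))) := by
  classical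
  set a : Equiv.Perm σ → R := fun π =>
    (Equiv.Perm.sign π : ℤ) • (η i0 * ∏ k ∈ Finset.univ.erase i0, θ (π k) (η k)) with ha
  have h1 : ∀ π : Equiv.Perm σ, θ (π i0) (a π) =
      (Equiv.Perm.sign π : ℤ) • (∏ k, θ (π k) (η k)) +
      η i0 * ∑ k ∈ Finset.univ.erase i0, (Equiv.Perm.sign π : ℤ) • (θ (π i0) (θ (π k) (η k)) *
        ∏ l ∈ (Finset.univ.erase i0).erase k, θ (π l) (η l)) := by
    intro π
    rw [ha]
    simp only
    rw [map_zsmul, Derivation.leibniz, deriv_prod_R, smul_eq_mul, smul_eq_mul,
      ← Finset.mul_prod_erase Finset.univ (fun k => θ (π k) (η k)) (Finset.mem_univ i0),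
      ← Finset.smul_sum, smul_add, add_comm]
    congr 1
    · congr 1
      ring
    · rw [mul_smul_comm]
  have hZ : ∀ k ∈ Finset.univ.erase i0, ∑ π : Equiv.Perm σ,
      (Equiv.Perm.sign π : ℤ) • (θ (π i0) (θ (π k) (η k)) *
        ∏ l ∈ (Finset.univ.erase i0).erase k, θ (π l) (η l)) = 0 := by
    intro k hk
    have hki : k ≠ i0 := Finset.ne_of_mem_erase hk
    set F : Equiv.Perm σ → R := fun π => (Equiv.Perm.sign π : ℤ) • (θ (π i0) (θ (π k) (η k)) *
        ∏ l ∈ (Finset.univ.erase i0).erase k, θ (π l) (η l)) with hF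
    have h2 : ∑ π, F π = ∑ π, F (π * Equiv.swap i0 k) :=
      (Equiv.sum_comp (Equiv.mulRight (Equiv.swap i0 k)) F).symm
    have h3 : ∀ π, F (π * Equiv.swap i0 k) = - F π := by
      intro π
      rw [hF]
      simp only
      rw [Equiv.Perm.sign_mul, Equiv.Perm.sign_swap (fun h => hki h.symm)]
      simp only [Equiv.Perm.mul_apply, Equiv.swap_apply_left, Equiv.swap_apply_right]
      rw [hcomm (π k) (π i0)]
      have h4 : ∏ l ∈ (Finset.univ.erase i0).erase k, θ (π (Equiv.swap i0 k l)) (η l)
          = ∏ l ∈ (Finset.univ.erase i0).erase k, θ (π l) (η l) := by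
        refine Finset.prod_congr rfl fun l hl => ?_
        rw [Equiv.swap_apply_of_ne_of_ne
          (Finset.ne_of_mem_erase (Finset.mem_of_mem_erase hl)) (Finset.ne_of_mem_erase hl)]
      rw [h4]
      simp
    have h5 : ∑ π, F π = - ∑ π, F π := by
      conv_lhs => rw [h2]
      rw [← Finset.sum_neg_distrib]
      exact Finset.sum_congr rfl fun π _ => h3 π
    exact self_eq_neg_R h5
  rw [Finset.sum_congr rfl fun π _ => h1 π, Finset.sum_add_distrib, ← Finset.mul_sum,
    Finset.sum_comm, Finset.sum_eq_zero hZ, mul_zero, add_zero, Matrix.det_apply]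
  refine Finset.sum_congr rfl fun π _ => ?_
  simp only [Matrix.of_apply]
  rfl

/-- the coefficients of the divergence formula -/
noncomputable def cof (θ : σ → Derivation ℂ R R) (ξ : σ → R) (t l : σ) : R :=
  ∑ π : Equiv.Perm σ, if π l = t then
    (Equiv.Perm.sign π : ℤ) • ∏ k ∈ Finset.univ.erase l, θ (π k) (ξ k) else 0

open MvPolynomial

variable {ι : Type*}

/-- the substitution -/
noncomputable def psi (y : ι → R) (ξ : σ → R) : MvPolynomial (ι ⊕ σ) ℂ →ₐ[ℂ] R :=
  aeval (Sum.elim y ξ)

theorem chain_rule (D : Derivation ℂ R R) (y : ι → R) (ξ : σ → R) (hy : ∀ j, D (y j) = 0)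
    (q : MvPolynomial (ι ⊕ σ) ℂ) :
    D (psi y ξ q) = ∑ i, D (ξ i) * psi y ξ (pderiv (Sum.inr i) q) := by
  classical
  induction q using MvPolynomial.induction_on with
  | C a =>
    have h : psi y ξ (C a) = algebraMap ℂ R a := aeval_C _ _
    rw [h, Derivation.map_algebraMap]
    simp
  | add p q hp hq =>
    rw [map_add, map_add, hp, hq, ← Finset.sum_add_distrib]
    refine Finset.sum_congr rfl fun i _ => ?_
    rw [map_add, map_add]
    ring
  | mul_X p k hp =>
    have hX : D (psi y ξ (X k)) = ∑ i, D (ξ i) * psi y ξ (pderiv (Sum.inr i) (X k)) := by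
      rcases k with j | i
      · have h : psi y ξ (X (Sum.inl j)) = y j := aeval_X _ _
        rw [h, hy]
        symm
        refine Finset.sum_eq_zero fun i _ => ?_
        rw [pderiv_X_of_ne (by simp), map_zero, mul_zero]
      · have h : psi y ξ (X (Sum.inr i)) = ξ i := aeval_X _ _
        rw [h, Finset.sum_eq_single i]
        · rw [pderiv_X_self, map_one, mul_one]
        · intro i' _ hi
          rw [pderiv_X_of_ne (fun h => hi (Sum.inr_injective h).symm), map_zero, mul_zero]
        · intro h; exact absurd (Finset.mem_univ i) h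
    rw [map_mul, Derivation.leibniz, smul_eq_mul, smul_eq_mul, hp, hX, Finset.mul_sum,
      Finset.mul_sum, ← Finset.sum_add_distrib]
    refine Finset.sum_congr rfl fun i _ => ?_
    rw [Derivation.leibniz, smul_eq_mul, smul_eq_mul, map_add, map_mul, map_mul]
    ring

/-- **The change of variables for divergences.** -/
theorem piola (θ : σ → Derivation ℂ R R) (hcomm : ∀ s t u, θ s (θ t u) = θ t (θ s u))
    (y : ι → R) (ξ : σ → R) (hy : ∀ t j, θ t (y j) = 0) (q : σ → MvPolynomial (ι ⊕ σ) ℂ) :
    Matrix.det (Matrix.of fun t k => θ t (ξ k)) * psi y ξ (∑ l, pderiv (Sum.inr l) (q l)) =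
      ∑ t, θ t (∑ l, cof θ ξ t l * psi y ξ (q l)) := by
  classical
  set M : Matrix σ σ R := Matrix.of fun t k => θ t (ξ k) with hM
  have key : ∀ l : σ, M.det * psi y ξ (pderiv (Sum.inr l) (q l)) =
      ∑ t, θ t (cof θ ξ t l * psi y ξ (q l)) := by
    intro l
    have h1 := det_eq_sum_R θ hcomm l (Function.update ξ l (psi y ξ (q l)))
    have h2 : (Matrix.of fun t k => θ t (Function.update ξ l (psi y ξ (q l)) k)) =
        M.updateCol l (M.mulVec fun i => psi y ξ (pderiv (Sum.inr i) (q l))) := by
      ext t k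
      rw [Matrix.updateCol_apply, Matrix.of_apply, Function.update_apply]
      split_ifs
      · rw [chain_rule (θ t) y ξ (hy t)]
        rfl
      · rfl
    have h3 : (M.updateCol l (M.mulVec fun i => psi y ξ (pderiv (Sum.inr i) (q l)))).det =
        M.det * psi y ξ (pderiv (Sum.inr l) (q l)) := by
      rw [← Matrix.cramer_apply, Matrix.cramer_eq_adjugate_mulVec, Matrix.mulVec_mulVec,
        Matrix.adjugate_mul, Matrix.smul_mulVec, Matrix.one_mulVec]
      rfl
    rw [h2, h3] at h1
    rw [h1]
    have h4 : ∀ π : Equiv.Perm σ, θ (π l) ((Equiv.Perm.sign π : ℤ) •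
        (Function.update ξ l (psi y ξ (q l)) l * ∏ k ∈ Finset.univ.erase l,
          θ (π k) (Function.update ξ l (psi y ξ (q l)) k))) =
        ∑ t, θ t ((if π l = t then
          (Equiv.Perm.sign π : ℤ) • ∏ k ∈ Finset.univ.erase l, θ (π k) (ξ k) else 0) *
            psi y ξ (q l)) := by
      intro π
      rw [Finset.sum_eq_single (π l)]
      · rw [if_pos rfl, Function.update_self]
        congr 1
        rw [smul_mul_assoc, mul_comm]
        congr 2
        refine Finset.prod_congr rfl fun k hk => ?_
        rw [Function.update_of_ne (Finset.ne_of_mem_erase hk)]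
      · intro t _ ht
        rw [if_neg (fun h => ht h.symm), zero_mul, map_zero]
      · intro h; exact absurd (Finset.mem_univ _) h
    rw [Finset.sum_congr rfl fun π _ => h4 π, Finset.sum_comm]
    refine Finset.sum_congr rfl fun t _ => ?_
    rw [← map_sum, cof, Finset.sum_mul]
  rw [map_sum, Finset.mul_sum, Finset.sum_congr rfl fun l _ => key l, Finset.sum_comm]
  refine Finset.sum_congr rfl fun t _ => ?_
  rw [map_sum]

end PiolaR

section coefficientwise

variable {B : Type*} [CommRing B] [Algebra ℂ B]

theorem coeff_smul_ps (c : ℂ) (f : PowerSeries B) (n : ℕ) :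
    PowerSeries.coeff n (c • f) = c • PowerSeries.coeff n f :=
  (PowerSeries.coeff n).map_smul_of_tower c f

/-- the derivation which acts on the coefficients -/
noncomputable def pd (d : Derivation ℂ B B) : Derivation ℂ (PowerSeries B) (PowerSeries B) :=
  Derivation.mk'
    { toFun := fun f => PowerSeries.mk fun n => d (PowerSeries.coeff n f)
      map_add' := fun f g => by ext n; simp
      map_smul' := fun c f => by
        ext n
        rw [PowerSeries.coeff_mk, RingHom.id_apply, coeff_smul_ps, coeff_smul_ps,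
          Derivation.map_smul, PowerSeries.coeff_mk] }
    (fun f g => by
      ext n
      change PowerSeries.coeff n (PowerSeries.mk fun n => d (PowerSeries.coeff n (f * g))) =
        PowerSeries.coeff n (f * (PowerSeries.mk fun n => d (PowerSeries.coeff n g)) +
          g * (PowerSeries.mk fun n => d (PowerSeries.coeff n f)))
      rw [PowerSeries.coeff_mk, map_add, mul_comm g, PowerSeries.coeff_mul,
        PowerSeries.coeff_mul, PowerSeries.coeff_mul, map_sum, ← Finset.sum_add_distrib]
      refine Finset.sum_congr rfl fun x _ => ?_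
      rw [Derivation.leibniz, PowerSeries.coeff_mk, PowerSeries.coeff_mk, smul_eq_mul, smul_eq_mul]
      ring)

theorem coeff_pd (d : Derivation ℂ B B) (f : PowerSeries B) (n : ℕ) :
    PowerSeries.coeff n (pd d f) = d (PowerSeries.coeff n f) := by
  change PowerSeries.coeff n (PowerSeries.mk fun n => d (PowerSeries.coeff n f)) = _
  rw [PowerSeries.coeff_mk]

theorem pd_C (d : Derivation ℂ B B) (a : B) : pd d (PowerSeries.C a) = PowerSeries.C (d a) := by
  ext n
  rw [coeff_pd, PowerSeries.coeff_C, PowerSeries.coeff_C]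
  split_ifs
  · rfl
  · exact map_zero d

theorem pd_X (d : Derivation ℂ B B) : pd d (PowerSeries.X : PowerSeries B) = 0 := by
  ext n
  rw [coeff_pd, PowerSeries.coeff_X, map_zero]
  split_ifs
  · exact Derivation.map_one_eq_zero d
  · exact map_zero d

/-- the derivation with respect to the variable -/
noncomputable def dz (B : Type*) [CommRing B] [Algebra ℂ B] :
    Derivation ℂ (PowerSeries B) (PowerSeries B) :=
  (PowerSeries.derivative B).restrictScalars ℂ

theorem coeff_dz (f : PowerSeries B) (n : ℕ) :
    PowerSeries.coeff n (dz B f) = ((n : ℂ) + 1) • PowerSeries.coeff (n + 1) f := by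
  have h : PowerSeries.coeff n (dz B f) = PowerSeries.coeff (n + 1) f * ((n : B) + 1) :=
    PowerSeries.coeff_derivative f n
  rw [h, Algebra.smul_def, map_add, map_natCast, map_one, mul_comm]

theorem dz_C (a : B) : dz B (PowerSeries.C a) = 0 := PowerSeries.derivative_C

theorem dz_X : dz B (PowerSeries.X : PowerSeries B) = 1 := PowerSeries.derivative_X

theorem pd_comm' (d d' : Derivation ℂ B B) (h : ∀ a, d (d' a) = d' (d a)) (f : PowerSeries B) :
    pd d (pd d' f) = pd d' (pd d f) := by
  ext n
  rw [coeff_pd, coeff_pd, coeff_pd, coeff_pd, h]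

theorem pd_dz (d : Derivation ℂ B B) (f : PowerSeries B) :
    pd d (dz B f) = dz B (pd d f) := by
  ext n
  rw [coeff_pd, coeff_dz, coeff_dz, coeff_pd, Derivation.map_smul]

end coefficientwise

end Pool.Agent.L5helper26.CD
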