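import Pool.Agent.L5helper26.CD.Nab

set_option autoImplicit false
set_option linter.unusedSectionVars false

/-! # Reduction of the pole orders -/

namespace Pool.Agent.L5helper26.CD

open Pool.Agent.L5helper26.CP

/-- the data of the twisted logarithmic connection -/
structure Pk (B κ : Type*) [CommRing B] [Algebra ℂ B] where
  D : κ → Derivation ℂ B B
  h : κ → B
  g : κ → B
  z : κ → B
  ε : κ → ℂ
  α : ℂ
  hD : ∀ w w' a, D w (D w' a) = D w' (D w a)
  hh : ∀ w w', D w (h w') = D w' (h w)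
  hg : ∀ w w', D w (g w') = D w' (g w)

namespace Pk

variable {B κ : Type*} [CommRing B] [Algebra ℂ B] (P : Pk B κ)

/-- the connection form, for the pole order `Q` -/
noncomputable def hq (Q : κ → ℕ) (w : κ) : B := P.h w + algebraMap ℂ B (P.ε w - Q w)

theorem hq_sym (Q : κ → ℕ) (w w' : κ) : P.D w (P.hq Q w') = P.D w' (P.hq Q w) := by
  simp only [hq, map_add, Derivation.map_algebraMap, P.hh w w']

/-- the operators on the sequences -/
noncomputable def nt (Q : κ → ℕ) (w : κ) (X : ℤ → B) (r : ℤ) : B :=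
  nab P.D (P.hq Q) w (X r) + algebraMap ℂ B (1 + P.α - r) * (P.g w * X (r - 1))

theorem nt_add (Q : κ → ℕ) (w : κ) (X Y : ℤ → B) (r : ℤ) :
    P.nt Q w (fun r => X r + Y r) r = P.nt Q w X r + P.nt Q w Y r := by
  simp only [nt, nab, map_add]
  ring

theorem nt_sum {ι : Type*} (Q : κ → ℕ) (w : κ) (s : Finset ι) (X : ι → ℤ → B) (r : ℤ) :
    P.nt Q w (fun r => ∑ i ∈ s, X i r) r = ∑ i ∈ s, P.nt Q w (X i) r := by
  simp only [nt, nab, map_sum, Finset.mul_sum, Finset.sum_add_distrib]

theorem nt_const (Q : κ → ℕ) (w : κ) (c : ℂ) (X : ℤ → B) (r : ℤ) :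
    P.nt Q w (fun r => algebraMap ℂ B c * X r) r = algebraMap ℂ B c * P.nt Q w X r := by
  simp only [nt, nab, Derivation.leibniz, Derivation.map_algebraMap, smul_eq_mul]
  ring

theorem nt_comm (Q : κ → ℕ) (w w' : κ) (X : ℤ → B) (r : ℤ) :
    P.nt Q w (P.nt Q w' X) r = P.nt Q w' (P.nt Q w X) r := by
  simp only [nt, nab, map_add, Derivation.leibniz, Derivation.map_algebraMap, smul_eq_mul,
    P.hD w w', P.hg w w', P.hq_sym Q w w']
  ring

/-- the conditions on a logarithmic direction -/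
structure Good (s : κ) : Prop where
  ne : P.z s ≠ 0
  other : ∀ w, w ≠ s → P.D w (P.z s) = 0
  self : P.D s (P.z s) = P.z s
  dvd : ∀ b, P.z s ∣ P.D s b
  dvdh : P.z s ∣ P.h s
  dvdg : P.z s ∣ P.g s
  eps : ∀ n : ℕ, 0 < n → P.ε s ≠ n

theorem nt_mod {s : κ} (hs : P.Good s) (Q : κ → ℕ) (X : ℤ → B) (r : ℤ) :
    P.z s ∣ P.nt Q s X r - algebraMap ℂ B (P.ε s - Q s) * X r := by
  have h1 : P.nt Q s X r - algebraMap ℂ B (P.ε s - Q s) * X r =
      P.D s (X r) + P.h s * X r + algebraMap ℂ B (1 + P.α - r) * (P.g s * X (r - 1)) := by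
    simp only [nt, nab, hq]
    ring
  rw [h1]
  refine dvd_add (dvd_add (hs.dvd _) (hs.dvdh.mul_right _)) ?_
  exact Dvd.dvd.mul_left (hs.dvdg.mul_right _) _

variable [Fintype κ] [DecidableEq κ]

theorem nt_z {s : κ} (hs : P.Good s) (Q Q' : κ → ℕ) (hQ : Q s = Q' s + 1)
    (hQ' : ∀ w, w ≠ s → Q w = Q' w) (w : κ) (X : ℤ → B) (r : ℤ) :
    P.nt Q w (fun r => P.z s * X r) r = P.z s * P.nt Q' w X r := by
  by_cases hw : w = s
  · subst hw
    have h1 : algebraMap ℂ B (P.ε w - Q' w) = algebraMap ℂ B (P.ε w - Q w) + 1 := by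
      rw [hQ, ← map_one (algebraMap ℂ B), ← map_add]
      congr 1
      push_cast
      ring
    simp only [nt, nab, hq, Derivation.leibniz, smul_eq_mul, hs.self, h1]
    ring
  · simp only [nt, nab, hq, Derivation.leibniz, smul_eq_mul, hs.other w hw, hQ' w hw, mul_zero,
      add_zero]
    ring

/-- the solutions with poles of order `Q` -/
def Sol (Q : κ → ℕ) (c : B) : Prop := ∃ W : κ → ℤ → B, (∃ R : ℤ, ∀ w r, R < r → W w r = 0) ∧
  ∀ r : ℤ, ∑ w, P.nt Q w (W w) r = if r = 0 then c * ∏ w, P.z w ^ Q w else 0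

theorem sol_step [IsDomain B] (Q Q' : κ → ℕ) (s : κ) (hs : P.Good s) (hQ : Q s = Q' s + 1)
    (hQ' : ∀ w, w ≠ s → Q w = Q' w) (c : B) (h : P.Sol Q c) : P.Sol Q' c := by
  obtain ⟨W, ⟨R, hR⟩, hW⟩ := h
  set ρ : ℂ := P.ε s - Q s with hρ
  have hρ0 : ρ ≠ 0 := by
    rw [hρ, sub_ne_zero]
    exact hs.eps (Q s) (by omega)
  have hρ1 : algebraMap ℂ B ρ⁻¹ * algebraMap ℂ B ρ = 1 := by
    rw [← map_mul, inv_mul_cancel₀ hρ0, map_one]
  have hzP : ∀ r : ℤ, P.z s ∣ if r = 0 then c * ∏ w, P.z w ^ Q w else 0 := by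
    intro r
    split_ifs
    · refine Dvd.dvd.mul_left ?_ _
      refine Dvd.dvd.trans ?_ (Finset.dvd_prod_of_mem (fun w => P.z w ^ Q w) (Finset.mem_univ s))
      exact dvd_pow_self _ (by omega)
    · exact dvd_zero _
  let X : κ → ℤ → B := fun w => if w = s then
    (fun r => W s r + algebraMap ℂ B ρ⁻¹ * ∑ w' ∈ Finset.univ.erase s, P.nt Q w' (W w') r)
    else (fun r => W w r + algebraMap ℂ B (-ρ⁻¹) * P.nt Q s (W w) r)
  have hXs : X s = fun r => W s r + algebraMap ℂ B ρ⁻¹ *
      ∑ w' ∈ Finset.univ.erase s, P.nt Q w' (W w') r := if_pos rfl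
  have hXw : ∀ w, w ≠ s → X w = fun r => W w r + algebraMap ℂ B (-ρ⁻¹) * P.nt Q s (W w) r :=
    fun w hw => if_neg hw
  have hdiv : ∀ w r, P.z s ∣ X w r := by
    intro w r
    by_cases hw : w = s
    · rw [hw, hXs]
      have h1 := hW r
      rw [← Finset.add_sum_erase Finset.univ _ (Finset.mem_univ s)] at h1
      have h2 : W s r + algebraMap ℂ B ρ⁻¹ * ∑ w' ∈ Finset.univ.erase s, P.nt Q w' (W w') r =
          algebraMap ℂ B ρ⁻¹ * ((if r = 0 then c * ∏ w, P.z w ^ Q w else 0) -
            (P.nt Q s (W s) r - algebraMap ℂ B ρ * W s r)) := by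
        rw [← h1]
        linear_combination (-W s r) * hρ1
      beta_reduce
      rw [h2]
      exact Dvd.dvd.mul_left (dvd_sub (hzP r) (P.nt_mod hs Q (W s) r)) _
    · rw [hXw w hw]
      have h2 : W w r + algebraMap ℂ B (-ρ⁻¹) * P.nt Q s (W w) r =
          algebraMap ℂ B (-ρ⁻¹) * (P.nt Q s (W w) r - algebraMap ℂ B ρ * W w r) := by
        rw [map_neg]
        linear_combination (-W w r) * hρ1
      beta_reduce
      rw [h2]
      exact Dvd.dvd.mul_left (P.nt_mod hs Q (W w) r) _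
  choose W' hW' using hdiv
  have hXW : ∀ w, X w = fun r => P.z s * W' w r := fun w => funext fun r => hW' w r
  have hsum : ∀ r, ∑ w, P.nt Q w (X w) r = ∑ w, P.nt Q w (W w) r := by
    intro r
    rw [← Finset.add_sum_erase Finset.univ _ (Finset.mem_univ s),
      ← Finset.add_sum_erase Finset.univ (fun w => P.nt Q w (W w) r) (Finset.mem_univ s), hXs]
    have h1 : P.nt Q s (fun r => W s r + algebraMap ℂ B ρ⁻¹ *
        ∑ w' ∈ Finset.univ.erase s, P.nt Q w' (W w') r) r = P.nt Q s (W s) r +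
        algebraMap ℂ B ρ⁻¹ * ∑ w' ∈ Finset.univ.erase s, P.nt Q s (P.nt Q w' (W w')) r := by
      rw [P.nt_add, P.nt_const, P.nt_sum]
    have h2 : ∑ w ∈ Finset.univ.erase s, P.nt Q w (X w) r =
        ∑ w ∈ Finset.univ.erase s, P.nt Q w (W w) r +
        algebraMap ℂ B (-ρ⁻¹) * ∑ w ∈ Finset.univ.erase s, P.nt Q s (P.nt Q w (W w)) r := by
      rw [Finset.mul_sum, ← Finset.sum_add_distrib]
      refine Finset.sum_congr rfl fun w hw => ?_
      rw [hXw w (Finset.ne_of_mem_erase hw), P.nt_add, P.nt_const, P.nt_comm]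
    rw [h1, h2, map_neg]
    ring
  refine ⟨W', ⟨R + 1, fun w r hr => ?_⟩, fun r => ?_⟩
  · have h1 : X w r = 0 := by
      have hz : ∀ w', P.nt Q w' (W w') r = 0 := by
        intro w'
        rw [nt, hR w' r (by omega), hR w' (r - 1) (by omega), nab_zero, mul_zero, mul_zero,
          add_zero]
      have hz' : P.nt Q s (W w) r = 0 := by
        rw [nt, hR w r (by omega), hR w (r - 1) (by omega), nab_zero, mul_zero, mul_zero,
          add_zero]
      by_cases hw : w = s
      · rw [hw, hXs]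
        beta_reduce
        rw [hR s r (by omega), Finset.sum_eq_zero fun w' _ => hz w', mul_zero, add_zero]
      · rw [hXw w hw]
        beta_reduce
        rw [hR w r (by omega), hz', mul_zero, add_zero]
    rw [hW'] at h1
    exact (mul_eq_zero.1 h1).resolve_left hs.ne
  · refine mul_left_cancel₀ hs.ne ?_
    rw [Finset.mul_sum]
    have h1 : ∀ w, P.z s * P.nt Q' w (W' w) r = P.nt Q w (X w) r := by
      intro w
      rw [hXW w, P.nt_z hs Q Q' hQ hQ']
    rw [Finset.sum_congr rfl fun w _ => h1 w, hsum, hW]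
    have h2 : ∏ w, P.z w ^ Q w = P.z s * ∏ w, P.z w ^ Q' w := by
      rw [← Finset.mul_prod_erase Finset.univ _ (Finset.mem_univ s),
        ← Finset.mul_prod_erase Finset.univ (fun w => P.z w ^ Q' w) (Finset.mem_univ s), hQ,
        pow_succ]
      have h3 : ∏ w ∈ Finset.univ.erase s, P.z w ^ Q w =
          ∏ w ∈ Finset.univ.erase s, P.z w ^ Q' w :=
        Finset.prod_congr rfl fun w hw => by rw [hQ' w (Finset.ne_of_mem_erase hw)]
      rw [h3]
      ring
    split_ifs
    · rw [h2]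
      ring
    · rw [mul_zero]

theorem sol_zero [IsDomain B] (c : B) (n : ℕ) (Q : κ → ℕ) (hn : ∑ w, Q w = n)
    (hQ : ∀ w, 0 < Q w → P.Good w) (h : P.Sol Q c) : P.Sol 0 c := by
  induction n generalizing Q with
  | zero =>
    have h1 : Q = 0 := by
      funext w
      exact Finset.sum_eq_zero_iff.1 hn w (Finset.mem_univ w)
    rwa [h1] at h
  | succ n ih =>
    obtain ⟨s, hs⟩ : ∃ s, 0 < Q s := by
      by_contra hcon
      push Not at hcon
      have h1 : ∑ w, Q w = 0 := Finset.sum_eq_zero fun w _ => Nat.le_zero.1 (hcon w)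
      omega
    have hQ's : Q s = Function.update Q s (Q s - 1) s + 1 := by
      rw [Function.update_self]
      omega
    have hQ'w : ∀ w, w ≠ s → Q w = Function.update Q s (Q s - 1) w := fun w hw => by
      rw [Function.update_of_ne hw]
    refine ih (Function.update Q s (Q s - 1)) ?_ (fun w hw => ?_)
      (P.sol_step Q _ s (hQ s hs) hQ's hQ'w c h)
    · rw [← Finset.add_sum_erase Finset.univ _ (Finset.mem_univ s)] at hn ⊢
      rw [hQ's] at hn
      have h3 : ∑ w ∈ Finset.univ.erase s, Q w =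
          ∑ w ∈ Finset.univ.erase s, Function.update Q s (Q s - 1) w :=
        Finset.sum_congr rfl fun w hw => hQ'w w (Finset.ne_of_mem_erase hw)
      omega
    · by_cases h1 : w = s
      · subst h1
        exact hQ w hs
      · exact hQ w (by rw [hQ'w w h1]; exact hw)

/-- the scaling factors -/
noncomputable def cr (α : ℂ) : ℕ → ℂ
  | 0 => 1
  | r + 1 => cr α r / (r - α)

theorem sol_mem (hα : ∀ n : ℕ, P.α ≠ n) (hsyz : Syz P.g) (c : B) (h : P.Sol 0 c) :
    c ∈ Ideal.span (Set.range P.g) := by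
  obtain ⟨W, ⟨R, hR⟩, hW⟩ := h
  have hmem : ∑ w, algebraMap ℂ B (1 + P.α) * (P.g w * W w (-1)) ∈ Ideal.span (Set.range P.g) :=
    Ideal.sum_mem _ fun w _ => Ideal.mul_mem_left _ _ (Ideal.mul_mem_right _ _
      (Ideal.subset_span ⟨w, rfl⟩))
  have key : c - ∑ w, algebraMap ℂ B (1 + P.α) * (P.g w * W w (-1)) ∈
      Ideal.span (Set.range P.g) := by
    refine const_mem_nab P.hD (P.hq_sym 0) P.hg hsyz _ R.toNat
      (fun r w => algebraMap ℂ B (cr P.α r) * W w r) (fun r hr => ?_) fun r => ?_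
    · funext w
      rw [hR w r (by omega), mul_zero, Pi.zero_apply]
    · have hnab : ∀ (r : ℕ) (w : κ), nab P.D (P.hq 0) w (algebraMap ℂ B (cr P.α r) * W w r) =
          algebraMap ℂ B (cr P.α r) * nab P.D (P.hq 0) w (W w r) := by
        intro r w
        simp only [nab, Derivation.leibniz, Derivation.map_algebraMap, smul_eq_mul]
        ring
      cases r with
      | zero =>
        have h1 := hW 0
        rw [if_pos rfl] at h1
        simp only [Pi.zero_apply, pow_zero, Finset.prod_const_one, mul_one] at h1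
        rw [sg, if_pos rfl, tfn, ← h1, ← Finset.sum_sub_distrib]
        refine Finset.sum_congr rfl fun w _ => ?_
        rw [hnab, cr, map_one, one_mul, nt]
        simp only [Nat.cast_zero, Int.cast_zero, sub_zero, zero_sub]
        ring
      | succ r =>
        have h1 := hW ((r : ℤ) + 1)
        rw [if_neg (by omega)] at h1
        rw [sg, if_neg (by omega), tfn, ← Finset.sum_sub_distrib]
        have h2 : ∀ w, nab P.D (P.hq 0) w (algebraMap ℂ B (cr P.α (r + 1)) * W w ((r + 1 : ℕ) : ℤ)) -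
            P.g w * (algebraMap ℂ B (cr P.α r) * W w r) =
            algebraMap ℂ B (cr P.α (r + 1)) * P.nt 0 w (W w) ((r : ℤ) + 1) := by
          intro w
          have hne : (r : ℂ) - P.α ≠ 0 := sub_ne_zero.2 (fun h => hα r h.symm)
          have h3 : cr P.α r = cr P.α (r + 1) * ((r : ℂ) - P.α) := by
            rw [cr, div_mul_cancel₀ _ hne]
          have e1 : (((r : ℤ) + 1 : ℤ) : ℂ) = (r : ℂ) + 1 := by push_cast; rfl
          have e2 : ((r + 1 : ℕ) : ℤ) = (r : ℤ) + 1 := by push_cast; rfl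
          rw [hnab, nt, h3, e1, e2, add_sub_cancel_right]
          simp only [map_mul, map_sub, map_add, map_one]
          ring
        rw [Finset.sum_congr rfl fun w _ => h2 w, ← Finset.mul_sum, h1, mul_zero]
  have h1 := Ideal.add_mem _ key hmem
  rwa [sub_add_cancel] at h1

end Pk

end Pool.Agent.L5helper26.CD
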