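import Pool.Agent.N127.PB.AI
import Pool.Agent.N475.CU.B1

set_option autoImplicit false
set_option linter.unusedSectionVars false

/-! # The functional equation of an ideal without operators, for arbitrary ideals -/

namespace Pool.Agent.L5helper26.CD

open MvPolynomial Pool.Agent.H628R4.TP Pool.Agent.W574.HS Pool.Agent.N127.PB

variable {ι σ : Type}

/-- the weight which gives the degree in the variables `inl j` -/
def wy (ι σ : Type) : ι ⊕ σ → ℕ × ℕ := Sum.elim (fun _ => (1, 0)) (fun _ => (0, 0))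

/-- all components of low `y`-degree vanish -/
def LowW (K : ℕ) (g : MvPolynomial (ι ⊕ σ) ℂ) : Prop :=
  ∀ n : ℕ × ℕ, n.1 < K → cmp (wy ι σ) n g = 0

theorem lowW_minus (K : ℕ) (w : Module.End ℂ (MvPolynomial (ι ⊕ σ) ℂ)) (hw : w ∈ minusA ι σ) :
    ∀ g, LowW K g → LowW K (w g) := by
  induction hw using Algebra.adjoin_induction with
  | mem w hw =>
    rcases hw with ⟨k, rfl⟩ | ⟨j, rfl⟩
    · intro g hg n hn
      rw [LinearMap.mulLeft_apply]
      by_cases h : ∃ m, wy ι σ k + m = n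
      · obtain ⟨m, rfl⟩ := h
        rw [cmp_mul _ (isWeightedHomogeneous_X ℂ _ k), hg m, mul_zero]
        rw [Prod.fst_add] at hn
        omega
      · push Not at h
        exact cmp_mul_zero _ (isWeightedHomogeneous_X ℂ _ k) g n h
    · intro g hg n hn
      change cmp (wy ι σ) n (pderiv (Sum.inr j) g) = 0
      rw [cmp_pderiv, hg, map_zero]
      rw [Prod.fst_add]
      simpa [wy] using hn
  | algebraMap r =>
    intro g hg n hn
    rw [Module.algebraMap_end_apply, map_smul, hg n hn, smul_zero]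
  | add w1 w2 _ _ h1 h2 =>
    intro g hg n hn
    rw [LinearMap.add_apply, map_add, h1 g hg n hn, h2 g hg n hn, add_zero]
  | mul w1 w2 _ _ h1 h2 =>
    intro g hg
    exact h1 _ (h2 g hg)

/-- the extension of an ideal of `ℂ[x]` to `ℂ[y, x]` -/
noncomputable def xt (ι : Type) {σ : Type} (I : Ideal (MvPolynomial σ ℂ)) :
    Ideal (MvPolynomial (ι ⊕ σ) ℂ) :=
  I.map (rename Sum.inr : MvPolynomial σ ℂ →ₐ[ℂ] MvPolynomial (ι ⊕ σ) ℂ)

theorem xt_induction {I : Ideal (MvPolynomial σ ℂ)} {P : MvPolynomial (ι ⊕ σ) ℂ → Prop}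
    (h0 : P 0) (hadd : ∀ a b, P a → P b → P (a + b))
    (hmul : ∀ a, ∀ p ∈ I, P (rename Sum.inr p * a)) (g : MvPolynomial (ι ⊕ σ) ℂ)
    (hg : g ∈ xt ι I) : P g := by
  unfold xt Ideal.map Ideal.span at hg
  induction hg using Submodule.closure_induction with
  | zero => exact h0
  | add x y _ _ hx hy => exact hadd x y hx hy
  | smul_mem r x hx =>
    obtain ⟨p, hp, rfl⟩ := hx
    rw [smul_eq_mul, mul_comm]
    exact hmul r p hp

theorem xt_mul {I : Ideal (MvPolynomial σ ℂ)} (a : MvPolynomial (ι ⊕ σ) ℂ) {p : MvPolynomial σ ℂ}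
    (hp : p ∈ I) : rename Sum.inr p * a ∈ xt ι I :=
  Ideal.mul_mem_right _ _ (Ideal.mem_map_of_mem _ hp)

theorem pd_rename (j : ι) (p : MvPolynomial σ ℂ) :
    pderiv (Sum.inl j : ι ⊕ σ) (rename Sum.inr p) = 0 := by
  induction p using MvPolynomial.induction_on with
  | C a => rw [rename_C, pderiv_C]
  | add p q hp hq => rw [map_add, map_add, hp, hq, add_zero]
  | mul_X p k hp =>
    rw [map_mul, Derivation.leibniz, hp, rename_X, pderiv_X_of_ne (by simp), smul_zero,
      smul_zero, add_zero]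

theorem plus_xt (I : Ideal (MvPolynomial σ ℂ)) (w : Module.End ℂ (MvPolynomial (ι ⊕ σ) ℂ))
    (hw : w ∈ plus ι σ) : ∀ g ∈ xt ι I, w g ∈ xt ι I := by
  induction hw using Algebra.adjoin_induction with
  | mem w hw =>
    rcases hw with ⟨k, rfl⟩ | ⟨j, rfl⟩
    · intro g hg
      rw [LinearMap.mulLeft_apply]
      exact Ideal.mul_mem_left _ _ hg
    · intro g hg
      change pderiv (Sum.inl j) g ∈ xt ι I
      refine xt_induction (P := fun g => pderiv (Sum.inl j) g ∈ xt ι I) ?_ ?_ ?_ g hg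
      · rw [map_zero]; exact zero_mem _
      · intro a b ha hb
        rw [map_add]
        exact add_mem ha hb
      · intro a p hp
        rw [Derivation.leibniz, pd_rename, smul_zero, add_zero, smul_eq_mul]
        exact xt_mul _ hp
  | algebraMap r =>
    intro g hg
    rw [Module.algebraMap_end_apply, smul_eq_C_mul]
    exact Ideal.mul_mem_left _ _ hg
  | add w1 w2 _ _ h1 h2 =>
    intro g hg
    rw [LinearMap.add_apply]
    exact add_mem (h1 g hg) (h2 g hg)
  | mul w1 w2 _ _ h1 h2 =>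
    intro g hg
    exact h1 _ (h2 g hg)

theorem rename_wy (p : MvPolynomial σ ℂ) :
    IsWeightedHomogeneous (wy ι σ) (rename Sum.inr p) (0, 0) := by
  intro c hc
  obtain ⟨u, hu, hu0⟩ := coeff_rename_ne_zero _ _ _ hc
  rw [← hu]
  clear hu0 hc hu
  induction u using Finsupp.induction_linear with
  | zero => simp; rfl
  | add v v' h h' =>
    rw [Finsupp.mapDomain_add, map_add, h, h']
    rfl
  | single a b =>
    rw [Finsupp.mapDomain_single, Finsupp.weight_single]
    simp [wy]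

theorem cmp_xt (I : Ideal (MvPolynomial σ ℂ)) (n : ℕ × ℕ) (g : MvPolynomial (ι ⊕ σ) ℂ)
    (hg : g ∈ xt ι I) : cmp (wy ι σ) n g ∈ xt ι I := by
  refine xt_induction (P := fun g => cmp (wy ι σ) n g ∈ xt ι I) ?_ ?_ ?_ g hg
  · rw [map_zero]; exact zero_mem _
  · intro a b ha hb
    rw [map_add]
    exact add_mem ha hb
  · intro a p hp
    have h := cmp_mul (wy ι σ) (rename_wy (ι := ι) p) a n
    rw [show ((0, 0) : ℕ × ℕ) + n = n from zero_add n] at h
    rw [h]
    exact xt_mul _ hp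

variable [Fintype ι]

theorem univ_wy (f : ι → MvPolynomial σ ℂ) : IsWeightedHomogeneous (wy ι σ) (univ f) (1, 0) := by
  unfold univ
  refine IsWeightedHomogeneous.sum _ _ _ fun j _ => ?_
  have h1 : IsWeightedHomogeneous (wy ι σ) (X (Sum.inl j) : MvPolynomial (ι ⊕ σ) ℂ) (1, 0) :=
    isWeightedHomogeneous_X ℂ _ (Sum.inl j)
  exact h1.mul (rename_wy (f j))

theorem univ_mem (f : ι → MvPolynomial σ ℂ) : univ f ∈ xt ι (Ideal.span (Set.range f)) := by
  unfold univ
  refine Ideal.sum_mem _ fun j _ => ?_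
  rw [mul_comm]
  exact xt_mul _ (Ideal.subset_span ⟨j, rfl⟩)

theorem xt_pow (I : Ideal (MvPolynomial σ ℂ)) (n : ℕ) : xt ι (I ^ n) = xt ι I ^ n :=
  Ideal.map_pow _ _ _

/-- **The functional equation of an ideal without operators**: for every `s` -/
theorem rel [Fintype σ] (f : ι → MvPolynomial σ ℂ) (b : Polynomial ℂ)
    (hb : IsBFunction (univ f) ((Polynomial.X + 1) * b)) (p : MvPolynomial σ ℂ) :
    ∃ (N : ℕ) (V : σ → Polynomial (MvPolynomial (ι ⊕ σ) ℂ)), ∀ s : ℕ, N ≤ s →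
      ∃ r ∈ xt ι (Ideal.span (Set.range f) ^ (s + 1)),
        rename Sum.inr p * (C (b.eval (s : ℂ)) * univ f ^ s) =
          ∑ l, pderiv (Sum.inr l) (univ f ^ (s - N) * (V l).eval (C (s : ℂ))) + r := by
  classical
  obtain ⟨P, hP⟩ := hb
  set F := univ f with hF
  set p' : MvPolynomial (ι ⊕ σ) ℂ := rename Sum.inr p with hp'
  have hFb : IsWeightedHomogeneous (wy ι σ) F (1, 0) := univ_wy f
  have hFp : ∀ n : ℕ, IsWeightedHomogeneous (wy ι σ) (F ^ n) (n, 0) := by
    intro n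
    have := hFb.pow n
    simpa using this
  have hpp : IsWeightedHomogeneous (wy ι σ) p' (0, 0) := rename_wy p
  choose w1 hw1 v hv hdec1 using fun m => rnormal (P m).1 (P m).2
  choose w0 hw0 u hu hdec using fun (m : ℕ) (j : ι) =>
    stmA1 ι σ (LinearMap.mulLeft ℂ p' * v m j)
      (mul_mem (Pool.Agent.N475.CU.mulLeft_mem p') (hv m j))
  choose N' U' hU' using fun (m : ℕ) (j : ι) (l : σ) =>
    A2P_all F (hu m j l) (Polynomial.C (rename Sum.inr (f j)))
  obtain ⟨N, hN⟩ : ∃ N : ℕ, ∀ m ∈ P.support, ∀ j l, N' m j l ≤ N := by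
    refine ⟨∑ m ∈ P.support, ∑ j, ∑ l, N' m j l, fun m hm j l => ?_⟩
    have a1 : N' m j l ≤ ∑ l, N' m j l := Finset.single_le_sum (f := fun l => N' m j l)
      (fun _ _ => Nat.zero_le _) (Finset.mem_univ l)
    have a2 : ∑ l, N' m j l ≤ ∑ j, ∑ l, N' m j l :=
      Finset.single_le_sum (f := fun j => ∑ l, N' m j l) (fun _ _ => Nat.zero_le _)
        (Finset.mem_univ j)
    have a3 : ∑ j, ∑ l, N' m j l ≤ ∑ m ∈ P.support, ∑ j, ∑ l, N' m j l :=
      Finset.single_le_sum (f := fun m => ∑ j, ∑ l, N' m j l) (fun _ _ => Nat.zero_le _) hm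
    omega
  let W : σ → Polynomial (MvPolynomial (ι ⊕ σ) ℂ) := fun l => ∑ m ∈ P.support, ∑ j,
    Polynomial.X ^ m * (Polynomial.C (F ^ (N - N' m j l)) * U' m j l)
  have hW : ∀ (l : σ) (s : ℕ), N ≤ s →
      ∑ m ∈ P.support, ∑ j, ((s : ℂ) ^ m) • u m j l (F ^ s * rename Sum.inr (f j)) =
        F ^ (s - N) * (W l).eval (C (s : ℂ)) := by
    intro l s hs
    simp only [W, Polynomial.eval_finsetSum, Finset.mul_sum]
    refine Finset.sum_congr rfl fun m hm => Finset.sum_congr rfl fun j _ => ?_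
    have hNm := hN m hm j l
    have e0 : u m j l (F ^ s * Polynomial.eval (s : MvPolynomial (ι ⊕ σ) ℂ)
        (Polynomial.C (rename Sum.inr (f j)))) = F ^ (s - N' m j l) *
          Polynomial.eval (s : MvPolynomial (ι ⊕ σ) ℂ) (U' m j l) := hU' m j l s (by omega)
    rw [Polynomial.eval_C] at e0
    rw [e0]
    rw [Polynomial.eval_mul, Polynomial.eval_mul, Polynomial.eval_pow, Polynomial.eval_X,
      Polynomial.eval_C, ← map_pow, smul_eq_C_mul]
    have e1 : s - N' m j l = (s - N) + (N - N' m j l) := by omega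
    rw [e1, pow_add, nat_eq_C s]
    ring
  let V : σ → Polynomial (MvPolynomial (ι ⊕ σ) ℂ) := fun l => mapU (cmp (wy ι σ) (N, 0)) (W l)
  refine ⟨N, V, fun s hs => ?_⟩
  have hs1 : ((s : ℂ) + 1) ≠ 0 := by exact_mod_cast Nat.succ_ne_zero s
  -- the derivatives of the power
  have hder : ∀ j, pderiv (Sum.inl j) (F ^ (s + 1)) =
      ((s : ℂ) + 1) • (F ^ s * rename Sum.inr (f j)) := by
    intro j
    rw [Derivation.leibniz_pow, Nat.add_sub_cancel, hF, pderiv_univ, smul_eq_mul,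
      nsmul_eq_mul, smul_eq_C_mul]
    congr 1
    push_cast
    rw [map_add, map_natCast, map_one]
  -- the remainder
  let r : MvPolynomial (ι ⊕ σ) ℂ := cmp (wy ι σ) (s, 0) (∑ m ∈ P.support, ∑ j, ((s : ℂ) ^ m) •
          w0 m j (F ^ s * rename Sum.inr (f j)))
  have hr : r ∈ xt ι (Ideal.span (Set.range f) ^ (s + 1)) := by
    refine cmp_xt _ _ _ (Ideal.sum_mem _ fun m _ => Ideal.sum_mem _ fun j _ => ?_)
    rw [smul_eq_C_mul]
    refine Ideal.mul_mem_left _ _ (plus_xt _ _ (hw0 m j) _ ?_)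
    rw [xt_pow, pow_succ]
    refine Ideal.mul_mem_mul (Ideal.pow_mem_pow (univ_mem f) s) ?_
    exact Ideal.mem_map_of_mem _ (Ideal.subset_span ⟨j, rfl⟩)
  refine ⟨r, hr, ?_⟩
  have e1 := congrArg (fun g => cmp (wy ι σ) (s, 0) (p' * g)) (hP s)
  beta_reduce at e1
  rw [Polynomial.eval_mul, Polynomial.eval_add, Polynomial.eval_X, Polynomial.eval_one] at e1
  have eL : cmp (wy ι σ) (s, 0) (p' * (C (((s : ℂ) + 1) * b.eval (s : ℂ)) * F ^ s)) =
      ((s : ℂ) + 1) • (p' * (C (b.eval (s : ℂ)) * F ^ s)) := by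
    have h1 : IsWeightedHomogeneous (wy ι σ) (p' * F ^ s) (s, 0) := by
      have := hpp.mul (hFp s)
      simpa using this
    have h2 : p' * (C (((s : ℂ) + 1) * b.eval (s : ℂ)) * F ^ s) =
        C (((s : ℂ) + 1) * b.eval (s : ℂ)) * (p' * F ^ s) := by ring
    rw [h2]
    have h3 : cmp (wy ι σ) (s, 0) (C (((s : ℂ) + 1) * b.eval (s : ℂ)) * (p' * F ^ s)) =
        C (((s : ℂ) + 1) * b.eval (s : ℂ)) * cmp (wy ι σ) (s, 0) (p' * F ^ s) :=
      weightedHomogeneousComponent_C_mul _ _ _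
    rw [h3, h1.weightedHomogeneousComponent_same, smul_eq_C_mul, map_mul]
    ring
  rw [eL] at e1
  have e2 : p' * (P.sum fun m Q => ((s : ℂ) ^ m) • (Q : Module.End ℂ (MvPolynomial (ι ⊕ σ) ℂ))
      (F ^ (s + 1))) =
      (∑ m ∈ P.support, ((s : ℂ) ^ m) • (p' * w1 m (F ^ (s + 1)))) +
      ((s : ℂ) + 1) • ((∑ m ∈ P.support, ∑ j, ((s : ℂ) ^ m) •
        w0 m j (F ^ s * rename Sum.inr (f j))) +
      ∑ l, pderiv (Sum.inr l) (F ^ (s - N) * (W l).eval (C (s : ℂ)))) := by
    have e3 : ∀ l, pderiv (Sum.inr l) (F ^ (s - N) * (W l).eval (C (s : ℂ))) =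
        ∑ m ∈ P.support, ∑ j, ((s : ℂ) ^ m) •
          pderiv (Sum.inr l) (u m j l (F ^ s * rename Sum.inr (f j))) := by
      intro l
      rw [← hW l s hs, map_sum]
      refine Finset.sum_congr rfl fun m _ => ?_
      rw [map_sum]
      refine Finset.sum_congr rfl fun j _ => ?_
      rw [Derivation.map_smul]
    have e3' : ∑ l, pderiv (Sum.inr l) (F ^ (s - N) * (W l).eval (C (s : ℂ))) =
        ∑ m ∈ P.support, ∑ j, ∑ l, ((s : ℂ) ^ m) •
          pderiv (Sum.inr l) (u m j l (F ^ s * rename Sum.inr (f j))) := by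
      rw [Finset.sum_congr rfl fun l _ => e3 l, Finset.sum_comm]
      refine Finset.sum_congr rfl fun m _ => ?_
      rw [Finset.sum_comm]
    rw [e3', ← Finset.sum_add_distrib, Finset.smul_sum, ← Finset.sum_add_distrib, Finsupp.sum,
      Finset.mul_sum]
    refine Finset.sum_congr rfl fun m _ => ?_
    have e4 : (P m : Module.End ℂ (MvPolynomial (ι ⊕ σ) ℂ)) (F ^ (s + 1)) = _ :=
      hdec1 m (F ^ (s + 1))
    rw [e4, smul_add, mul_add, mul_smul_comm]
    congr 1
    rw [← Finset.sum_add_distrib, Finset.smul_sum, Finset.smul_sum, Finset.mul_sum]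
    refine Finset.sum_congr rfl fun j _ => ?_
    have e5 : p' * v m j (F ^ s * rename Sum.inr (f j)) = _ :=
      hdec m j (F ^ s * rename Sum.inr (f j))
    rw [hder j, map_smul, mul_smul_comm, mul_smul_comm, e5, smul_comm]
    congr 1
    rw [smul_add, Finset.smul_sum]
  rw [e2, map_add, map_sum] at e1
  have z1 : ∀ m ∈ P.support, cmp (wy ι σ) (s, 0)
      (((s : ℂ) ^ m) • (p' * w1 m (F ^ (s + 1)))) = 0 := by
    intro m _
    have h := cmp_mul (wy ι σ) hpp (w1 m (F ^ (s + 1))) (s, 0)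
    rw [show ((0, 0) : ℕ × ℕ) + (s, 0) = (s, 0) from zero_add _] at h
    rw [map_smul, h, lowW_minus (s + 1) (w1 m) (hw1 m) (F ^ (s + 1)) ?_ (s, 0) ?_,
      mul_zero, smul_zero]
    · intro n hn
      refine (hFp (s + 1)).weightedHomogeneousComponent_ne n ?_
      rintro rfl
      exact lt_irrefl _ hn
    · exact Nat.lt_succ_self s
  rw [Finset.sum_eq_zero z1, zero_add, map_smul, map_add, map_sum] at e1
  have e5 : ((s : ℂ) + 1) • (p' * (C (b.eval (s : ℂ)) * F ^ s)) = ((s : ℂ) + 1) •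
      (∑ l, pderiv (Sum.inr l) (F ^ (s - N) * (V l).eval (C (s : ℂ))) + r) := by
    rw [e1]
    congr 1
    rw [add_comm]
    congr 1
    · rw [map_sum]
      refine Finset.sum_congr rfl fun l _ => ?_
      rw [cmp_pderiv]
      have e5 : ((s, 0) : ℕ × ℕ) + wy ι σ (Sum.inr l) = (s - N, 0) + (N, 0) := by
        change ((s + 0, 0 + 0) : ℕ × ℕ) = (s - N + N, 0 + 0)
        rw [Nat.sub_add_cancel hs, add_zero]
      rw [e5, cmp_mul _ (hFp (s - N)), mapU_eval]
    · exact (map_sum _ _ _).symm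
  exact smul_right_injective _ hs1 e5

end Pool.Agent.L5helper26.CD
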